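import Pool.Agent.Lib.MP_a4c1f4_lc.LB.Spec

set_option linter.all false

/-!
Elementary bounds for harmonic numbers.
-/

namespace Pool.Agent.MP_a4c1f4_lc.LB

open Finset

namespace HrbM

theorem harmonic_eq (n : ℕ) : (harmonic n : ℝ) = hr n := by
  rw [harmonic, hr]
  push_cast
  refine Finset.sum_congr rfl fun i _ => ?_
  rw [one_div]

theorem sum_uu (l : ℕ) (x : ℝ) : ∑ t ∈ range l, uu l x t = x * hr l := by
  rw [hr, Finset.mul_sum, ← Finset.sum_range_reflect]
  refine Finset.sum_congr rfl fun i hi => ?_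
  have hi' : i < l := Finset.mem_range.1 hi
  rw [uu]
  have h1 : ((l - 1 - i : ℕ) : ℝ) = (l : ℝ) - 1 - i := by
    rw [Nat.sub_sub, Nat.cast_sub (by omega)]
    push_cast
    ring
  rw [h1]
  have h2 : (l : ℝ) - ((l : ℝ) - 1 - i) = (i : ℝ) + 1 := by ring
  rw [h2]
  ring

theorem uu_nonneg (l : ℕ) (x : ℝ) (hx : 0 ≤ x) (t : ℕ) (ht : t ∈ range l) : 0 ≤ uu l x t := by
  have ht' : (t : ℝ) < l := by exact_mod_cast Finset.mem_range.1 ht
  exact div_nonneg hx (by linarith)

end HrbM

open HrbM in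
theorem stmtHrb : StmtHrb := by
  refine ⟨harmonic_eq, ?_, ?_, ?_, ?_⟩
  · intro n
    rw [← harmonic_eq]
    have := log_add_one_le_harmonic n
    push_cast at this
    exact this
  · intro n _
    rw [← harmonic_eq]
    exact harmonic_le_one_add_log n
  · intro l x hx
    rw [PP, ← sum_uu, Real.exp_sum]
    refine Finset.prod_le_prod (fun t ht => ?_) (fun t ht => ?_)
    · have := uu_nonneg l x hx t ht
      linarith
    · have := Real.add_one_le_exp (uu l x t)
      linarith
  · intro l x hx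
    rw [PP]
    have h : ∀ t ∈ range l, 1 ≤ 1 + uu l x t := fun t ht => by
      have := uu_nonneg l x hx t ht
      linarith
    calc (1 : ℝ) = ∏ t ∈ range l, 1 := by simp
      _ ≤ _ := Finset.prod_le_prod (fun _ _ => zero_le_one) h

end Pool.Agent.MP_a4c1f4_lc.LB
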