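import Pool.Agent.Lib.MP_a4c1f4_lc.LB.Spec

set_option linter.all false

/-!
Symmetry of random permutations.
-/

namespace Pool.Agent.MP_a4c1f4_lc.LB

open Finset

namespace SymM

theorem count (l t : ℕ) (ht : t < l) :
    ((univ.filter (fun i : Fin l => t ≤ (i : ℕ))).card : ℝ) = (l : ℝ) - t := by
  have h1 : (univ.filter (fun i : Fin l => t ≤ (i : ℕ))).card = l - t := by
    have h2 : (univ.filter (fun i : Fin l => t ≤ (i : ℕ))) = Finset.Ici (⟨t, ht⟩ : Fin l) := by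
      ext i
      simp [Fin.le_def]
    rw [h2, Fin.card_Ici]
  rw [h1, Nat.cast_sub ht.le]

end SymM

theorem stmtSym : StmtSym := by
  intro l t ht F hF
  classical
  rw [Finset.sum_comm]
  have h1 : ∀ i : Fin l, t ≤ (i : ℕ) →
      ∑ σ : Equiv.Perm (Fin l), (if t ≤ (i : ℕ) ∧ σ i ∈ F σ then (1 : ℝ) else 0) =
        ∑ σ : Equiv.Perm (Fin l), (if σ ⟨t, ht⟩ ∈ F σ then (1 : ℝ) else 0) := by
    intro i hi
    rw [← Equiv.sum_comp (Equiv.mulRight (Equiv.swap (⟨t, ht⟩ : Fin l) i))]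
    refine Finset.sum_congr rfl fun σ _ => ?_
    have h2 : F (σ * Equiv.swap (⟨t, ht⟩ : Fin l) i) = F σ := by
      refine hF _ _ fun j hj => ?_
      rw [Equiv.Perm.mul_apply, Equiv.swap_apply_of_ne_of_ne]
      · intro e
        rw [e] at hj
        exact lt_irrefl _ hj
      · intro e
        rw [e] at hj
        omega
    have h3 : (σ * Equiv.swap (⟨t, ht⟩ : Fin l) i) i = σ ⟨t, ht⟩ := by
      rw [Equiv.Perm.mul_apply, Equiv.swap_apply_right]
    simp only [Equiv.coe_mulRight, h2, h3, hi, true_and]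
  have h4 : ∀ i : Fin l, ∑ σ : Equiv.Perm (Fin l),
      (if t ≤ (i : ℕ) ∧ σ i ∈ F σ then (1 : ℝ) else 0) =
        if t ≤ (i : ℕ) then ∑ σ : Equiv.Perm (Fin l), (if σ ⟨t, ht⟩ ∈ F σ then (1 : ℝ) else 0)
          else 0 := by
    intro i
    by_cases hi : t ≤ (i : ℕ)
    · rw [if_pos hi]
      exact h1 i hi
    · rw [if_neg hi]
      refine Finset.sum_eq_zero fun σ _ => ?_
      rw [if_neg]
      exact fun h => hi h.1
  rw [Finset.sum_congr rfl fun i _ => h4 i]
  generalize (∑ σ : Equiv.Perm (Fin l), (if σ ⟨t, ht⟩ ∈ F σ then (1 : ℝ) else 0)) = S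
  rw [← SymM.count l t ht, ← Finset.sum_filter, Finset.sum_const, nsmul_eq_mul]

end Pool.Agent.MP_a4c1f4_lc.LB
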