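import Pool.Agent.Lib.MP_a4c1f4_lc.LB.Spec

set_option linter.all false

/-!
# Module `LB/Alg`
-/

namespace Pool.Agent.MP_a4c1f4_lc.LB

open Finset

namespace AlgM

/-- the tail products -/
noncomputable def VV (l : ℕ) (x : ℝ) (i : ℕ) : ℝ := ∏ i' ∈ Ico i l, (1 + uu l x i')

theorem VV_self (l : ℕ) (x : ℝ) : VV l x l = 1 := by simp [VV]

theorem VV_zero (l : ℕ) (x : ℝ) : VV l x 0 = PP l x := by
  rw [VV, PP, Finset.range_eq_Ico]

theorem VV_succ (l : ℕ) (x : ℝ) (i : ℕ) (hi : i < l) :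
    VV l x i = (1 + uu l x i) * VV l x (i + 1) := by
  rw [VV, VV, Finset.prod_eq_prod_Ico_succ_bot hi]

theorem vv_eq (l : ℕ) (x : ℝ) (i : ℕ) : vv l x i = uu l x i * VV l x (i + 1) := rfl

theorem hr_sub (l : ℕ) (x : ℝ) (j : ℕ) (hj : j ≤ l) :
    x * hr (l - j) = x * hr l - ∑ t ∈ range j, uu l x t := by
  induction j with
  | zero => simp
  | succ j ih =>
    have h1 := ih (by omega)
    obtain ⟨n, hn⟩ : ∃ n, l - j = n + 1 := ⟨l - j - 1, by omega⟩
    have h2 : l - (j + 1) = n := by omega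
    have h3 : (l : ℝ) - j = (n : ℝ) + 1 := by
      have : l = j + (n + 1) := by omega
      rw [this]
      push_cast
      ring
    rw [hn, hr, sum_range_succ, ← hr, mul_add] at h1
    rw [h2, sum_range_succ, uu, h3]
    have h4 : x * (1 / ((n : ℝ) + 1)) = x / ((n : ℝ) + 1) := by ring
    linarith

end AlgM

open AlgM in
theorem stmtAlg : StmtAlg := by
  intro l hl x q
  have hv : ∑ j ∈ range l, vv l x j = PP l x - 1 := by
    have h1 : ∀ j ∈ range l, vv l x j = VV l x j - VV l x (j + 1) := fun j hj => by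
      rw [VV_succ l x j (mem_range.1 hj), vv_eq]
      ring
    rw [sum_congr rfl h1, sum_range_sub', VV_zero, VV_self]
  refine ⟨hv, ?_⟩
  have hu : ∑ t ∈ range l, uu l x t = x * hr l := by
    have h := hr_sub l x l le_rfl
    rw [Nat.sub_self] at h
    have h0 : hr 0 = 0 := by simp [hr]
    rw [h0] at h
    linarith
  set A : ℕ → ℝ := fun j => ∑ t ∈ range j, uu l x t * q t with hA
  have h1 : ∀ j, ∑ t ∈ range j, 2 * uu l x t * (1 - q t) =
      2 * ∑ t ∈ range j, uu l x t - 2 * A j := fun j => by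
    rw [hA]
    simp only [mul_sum]
    rw [← sum_sub_distrib]
    exact sum_congr rfl fun t _ => by ring
  have h2 : ∀ j ∈ range l, vv l x j *
      (∑ t ∈ range j, 2 * uu l x t * (1 - q t) + 2 * q j + 2 * x * hr (l - j) - x) =
      (2 * x * hr l - x) * vv l x j + 2 * (VV l x (j + 1) * A (j + 1) - VV l x j * A j) := by
    intro j hj
    have hj' := mem_range.1 hj
    have h3 := hr_sub l x j hj'.le
    have h4 : A (j + 1) = A j + uu l x j * q j := by
      rw [hA]
      exact sum_range_succ _ _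
    rw [h1, mul_assoc 2 x (hr (l - j)), h3, h4, VV_succ l x j hj', vv_eq]
    ring
  have hA0 : A 0 = 0 := by simp [hA]
  rw [sum_congr rfl h2, sum_add_distrib, ← mul_sum, ← mul_sum, sum_range_sub (fun j =>
    VV l x j * A j), h1, hv, hu, hA0, VV_self]
  ring

end Pool.Agent.MP_a4c1f4_lc.LB
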