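import Pool.Agent.Lib.MP_a4c1f4_lc.LB.Spec

set_option linter.all false

/-!
Module `LB/Asym`: the asymptotic form of the lower bound.
-/

namespace Pool.Agent.MP_a4c1f4_lc.LB

open Finset

namespace AsymM

open Pool.Agent.MP_a4c1f4_lc.LB Filter Real Topology

theorem ev (ε : ℝ) (hε : 0 < ε) : ∀ᶠ t : ℝ in atTop, 1 ≤ t ∧ 3 + 2 * log 2 ≤ ε / 4 * t ∧
    14 * t ^ 2 * exp (-(ε / 8 * t)) < ε / 2 * t := by
  have h1 : ∀ᶠ t : ℝ in atTop, 1 ≤ t := eventually_ge_atTop 1
  have h2 : ∀ᶠ t : ℝ in atTop, (3 + 2 * log 2) / (ε / 4) ≤ t := eventually_ge_atTop _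
  have h3 : Tendsto (fun t : ℝ => ε / 8 * t) atTop atTop :=
    Tendsto.const_mul_atTop (by positivity) tendsto_id
  have h4 := (tendsto_pow_mul_exp_neg_atTop_nhds_zero 2).comp h3
  have h5 : ∀ᶠ t : ℝ in atTop, (ε / 8 * t) ^ 2 * exp (-(ε / 8 * t)) <
      (ε / 8) ^ 2 * (ε / 28) := by
    have h6 : (0 : ℝ) < (ε / 8) ^ 2 * (ε / 28) := by positivity
    exact (tendsto_order.1 h4).2 _ h6
  filter_upwards [h1, h2, h5] with t ht1 ht2 ht5
  refine ⟨ht1, ?_, ?_⟩
  · rw [div_le_iff₀ (by positivity)] at ht2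
    linarith
  · have h7 : (ε / 8) ^ 2 * (t ^ 2 * exp (-(ε / 8 * t))) < (ε / 8) ^ 2 * (ε / 28) := by
      calc (ε / 8) ^ 2 * (t ^ 2 * exp (-(ε / 8 * t))) =
          (ε / 8 * t) ^ 2 * exp (-(ε / 8 * t)) := by ring
        _ < _ := ht5
    have h8 : t ^ 2 * exp (-(ε / 8 * t)) < ε / 28 := lt_of_mul_lt_mul_left h7 (by positivity)
    nlinarith

theorem main (ε : ℝ) (hε : 0 < ε) (hε1 : ε ≤ 1) (h : StmtHrb) (m : ℕ) (hm : 2 ≤ m)
    (L la : ℝ) (hL : L = log m) (hla : la = log L) (hL2 : 2 * log 2 ≤ L)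
    (e1 : 1 ≤ la) (e2 : 3 + 2 * log 2 ≤ ε / 4 * la)
    (e3 : 14 * la ^ 2 * exp (-(ε / 8 * la)) < ε / 2 * la) :
    ∃ x : ℝ, 0 < x ∧ ∀ c : ℝ,
      2 * hr (m - m / 2) - 1 + 2 * x * hr (m / 2) +
          x * (2 * hr (m / 2) - 1) * (PP (m / 2) x - 1) ≤ c * (1 + x * (PP (m / 2) x - 1)) →
      2 * hr m + (2 - ε) * la ≤ c := by
  obtain ⟨-, hlo, hup, hPe, hP1⟩ := h
  have hlog2 : 0 < log 2 := log_pos (by norm_num)
  have hlog2' : log 2 < 1 := by
    have := log_two_lt_d9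
    linarith
  have hL0 : 0 < L := by linarith
  have hm0 : (0 : ℝ) < m := by positivity
  have hmr : (2 : ℝ) ≤ m := by exact_mod_cast hm
  -- bounds for the harmonic numbers
  have hlm2 : log ((m : ℝ) / 2) = L - log 2 := by
    rw [log_div hm0.ne' (by norm_num), hL]
  have b1 : L - log 2 ≤ hr (m / 2) := by
    refine le_trans ?_ (hlo (m / 2))
    rw [← hlm2]
    refine log_le_log (by positivity) ?_
    have h1 : m ≤ 2 * (m / 2) + 1 := by omega
    have h2 : (m : ℝ) ≤ 2 * ((m / 2 : ℕ) : ℝ) + 1 := by exact_mod_cast h1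
    linarith
  have b2 : L - log 2 ≤ hr (m - m / 2) := by
    refine le_trans ?_ (hlo (m - m / 2))
    rw [← hlm2]
    refine log_le_log (by positivity) ?_
    have h1 : m ≤ 2 * (m - m / 2) := by omega
    have h2 : (m : ℝ) ≤ 2 * ((m - m / 2 : ℕ) : ℝ) := by exact_mod_cast h1
    linarith
  have b3 : hr m ≤ 1 + L := by
    rw [hL]
    exact hup m (by omega)
  have b4 : L / 2 ≤ hr (m / 2) := by linarith
  have hl0 : 0 < hr (m / 2) := by linarith
  set hl := hr (m / 2) with hhl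
  set y := (1 - ε / 8) * la with hy
  have hy0 : 0 < y := by
    rw [hy]
    have : 0 < 1 - ε / 8 := by linarith
    positivity
  have hxl : y / hl * hl = y := div_mul_cancel₀ _ hl0.ne'
  have hx0 : 0 < y / hl := by positivity
  refine ⟨y / hl, hx0, fun c hc => ?_⟩
  set x := y / hl with hx
  set P := PP (m / 2) x with hP
  have hPe' : P ≤ exp y := by
    have := hPe (m / 2) x hx0.le
    rwa [← hhl, hxl] at this
  have hP1' : 1 ≤ P := hP1 (m / 2) x hx0.le
  by_contra hlt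
  push Not at hlt
  set T := 2 * hr m + (2 - ε) * la with hT
  have hQ : 0 ≤ x * (P - 1) := mul_nonneg hx0.le (by linarith)
  have s1 : c * (1 + x * (P - 1)) < T * (1 + x * (P - 1)) :=
    mul_lt_mul_of_pos_right hlt (by linarith)
  have s2 : 2 * hr (m - m / 2) - 1 + 2 * y - T < x * (P - 1) * (T - 2 * hl + 1) := by
    have h1 : 2 * x * hl = 2 * y := by rw [mul_assoc, hxl]
    rw [h1] at hc
    nlinarith
  have s3 : ε / 2 * la ≤ 2 * hr (m - m / 2) - 1 + 2 * y - T := by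
    have h1 : 2 * y - (2 - ε) * la = 3 * (ε / 4 * la) := by rw [hy]; ring
    have h2 : ε / 2 * la = 2 * (ε / 4 * la) := by ring
    rw [h2, hT]
    linarith
  have s4 : T - 2 * hl + 1 ≤ 7 * la := by
    have h1 : (2 - ε) * la ≤ 2 * la := by
      have : 0 ≤ ε * la := by positivity
      linarith
    rw [hT]
    linarith
  have s5 : x ≤ 2 * la / L := by
    rw [hx, div_le_div_iff₀ hl0 hL0]
    have h1 : y ≤ la := by
      rw [hy]
      have : 0 ≤ ε / 8 * la := by positivity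
      linarith
    have h2 : y * L ≤ la * L := mul_le_mul_of_nonneg_right h1 hL0.le
    have h3 : la * L ≤ la * (2 * hl) := mul_le_mul_of_nonneg_left (by linarith) (by linarith)
    linarith
  have s6 : P - 1 ≤ L * exp (-(ε / 8 * la)) := by
    have h1 : exp y = L * exp (-(ε / 8 * la)) := by
      have h2 : y = la + -(ε / 8 * la) := by rw [hy]; ring
      rw [h2, exp_add, hla, exp_log hL0]
    rw [← h1]
    linarith
  have s7 : x * (P - 1) * (T - 2 * hl + 1) ≤ 14 * la ^ 2 * exp (-(ε / 8 * la)) := by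
    have h1 : x * (P - 1) ≤ 2 * la / L * (L * exp (-(ε / 8 * la))) :=
      mul_le_mul s5 s6 (by linarith) (by positivity)
    have h2 : 2 * la / L * (L * exp (-(ε / 8 * la))) = 2 * la * exp (-(ε / 8 * la)) := by
      field_simp
    rw [h2] at h1
    calc x * (P - 1) * (T - 2 * hl + 1) ≤ x * (P - 1) * (7 * la) :=
          mul_le_mul_of_nonneg_left s4 hQ
      _ ≤ 2 * la * exp (-(ε / 8 * la)) * (7 * la) :=
          mul_le_mul_of_nonneg_right h1 (by linarith)
      _ = 14 * la ^ 2 * exp (-(ε / 8 * la)) := by ring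
  linarith

end AsymM

open Filter Real in
theorem stmtAsym (h1 : StmtHrb) : StmtAsym := by
  intro ε hε hε1
  have t1 : Tendsto (fun m : ℕ => log (m : ℝ)) atTop atTop :=
    tendsto_log_atTop.comp tendsto_natCast_atTop_atTop
  have t2 : Tendsto (fun m : ℕ => log (log (m : ℝ))) atTop atTop :=
    tendsto_log_atTop.comp t1
  filter_upwards [eventually_ge_atTop 2, t1.eventually_ge_atTop (2 * log 2),
    t2.eventually (AsymM.ev ε hε)] with m hm hL hla
  exact ⟨by omega, by omega, AsymM.main ε hε hε1 h1 m hm _ _ rfl rfl hL hla.1 hla.2.1 hla.2.2⟩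

end Pool.Agent.MP_a4c1f4_lc.LB
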