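import Pool.Agent.Lib.MP_a4c1f4_lc.LB.Spec

set_option linter.all false

/-!
# Module `LB/Card`
-/

namespace Pool.Agent.MP_a4c1f4_lc.LB

open Finset

namespace CardM

theorem length_req {m : ℕ} (g : ℕ → Fin m) (t : ℕ) : (req g t).length = t + 1 := by
  induction t with
  | zero => rfl
  | succ t ih => rw [req, List.length_cons, ih]

theorem length_assigned {N : Type} {m : ℕ} (A : N → List N → Fin m) (l : List N) :
    (assigned A l).length = l.length := by
  induction l with
  | nil => rfl
  | cons x l ih => rw [assigned, List.length_cons, List.length_cons, ih]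

theorem used_succ {m : ℕ} (A : Rl m) (g : ℕ → Fin m) (t : ℕ) :
    used A g t ⊆ used A g (t + 1) := by
  intro x hx
  rw [used, List.mem_toFinset] at hx ⊢
  rw [req, assigned]
  exact List.mem_cons_of_mem _ hx

theorem used_mono {m : ℕ} (A : Rl m) (g : ℕ → Fin m) (t n : ℕ) :
    used A g t ⊆ used A g (t + n) := by
  induction n with
  | zero => exact Subset.refl _
  | succ n ih => exact ih.trans (used_succ A g (t + n))

theorem req_congr {m : ℕ} (g g' : ℕ → Fin m) (t : ℕ) (h : ∀ i < t, g i = g' i) :
    req g t = req g' t := by
  induction t with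
  | zero => rfl
  | succ t ih => rw [req, req, ih fun i hi => h i (by omega), h t (by omega)]

end CardM

open CardM in
theorem stmtCard : StmtCard := by
  refine ⟨?_, fun m A g t n => used_mono A g t n, ?_⟩
  · intro m A hA g t ht
    rw [used, List.toFinset_card_of_nodup (hA _ (by rw [length_req]; omega)), length_assigned,
      length_req]
  · intro m A g g' t h
    rw [used, used, req_congr g g' t h]

end Pool.Agent.MP_a4c1f4_lc.LB
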