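import Pool.Agent.Lib.MP_a4c1f4_lc.LB.Spec

/-!
# The first corollary: algebra with a square root
-/

namespace Pool.Agent.MP_a4c1f4_lc.LB

open Finset

/-- Module `LB/CorA`. -/
theorem stmtCorA (h1 : StmtMain) (h2 : StmtHrb) : StmtCorA := by
  intro m hm
  obtain ⟨k, rfl⟩ : ∃ k, m = 1 + k := ⟨m - 1, by omega⟩
  have hk : 0 < k := by omega
  rw [Nat.add_sub_cancel_left, h2.1 k]
  have hR0 : 0 ≤ (hr k - 1) ^ 2 + 1 := by positivity
  have hR2 : √((hr k - 1) ^ 2 + 1) ^ 2 = (hr k - 1) ^ 2 + 1 := Real.sq_sqrt hR0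
  have hRh : hr k - 1 < √((hr k - 1) ^ 2 + 1) := Real.lt_sqrt_of_sq_lt (by linarith)
  generalize √((hr k - 1) ^ 2 + 1) = R at hR2 hRh ⊢
  obtain ⟨N, inst, s, hs, hc⟩ := h1 1 k one_pos hk (R - (hr k - 1)) (by linarith)
  refine ⟨N, inst, s, hs, ?_⟩
  intro c hcomp
  have h3 := hc c hcomp
  have h4 : hr 1 = 1 := by simp [hr]
  have h5 : PP 1 (R - (hr k - 1)) = 1 + (R - (hr k - 1)) := by simp [PP, uu]
  rw [h4, h5] at h3
  generalize hr k = H at *
  have h6 : 0 < 1 + (R - (H - 1)) * (R - (H - 1)) := by positivity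
  have h7 : (H + R) * (1 + (R - (H - 1)) * (R - (H - 1))) ≤
      c * (1 + (R - (H - 1)) * (R - (H - 1))) := by
    have h8 : (H + R) * (1 + (R - (H - 1)) * (R - (H - 1))) =
        2 * H - 1 + 2 * (R - (H - 1)) * 1 +
          (R - (H - 1)) * (2 * 1 - 1) * (1 + (R - (H - 1)) - 1) := by
      linear_combination (R - H + 1) * hR2
    rw [h8]
    have h9 : 1 + (R - (H - 1)) * (R - (H - 1)) =
      1 + (R - (H - 1)) * (1 + (R - (H - 1)) - 1) := by ring
    rw [h9]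
    exact h3
  exact le_of_mul_le_mul_right h7 h6

end Pool.Agent.MP_a4c1f4_lc.LB
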