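import Pool.Agent.Lib.MP_a4c1f4_lc.LB.Spec

/-!
# An inequality for harmonic numbers
-/

namespace Pool.Agent.MP_a4c1f4_lc.LB

open Finset

namespace CorBM

theorem aux (m : ℕ) (hm : 6 ≤ m) : 4 * ((harmonic (m - 1) : ℝ) - 1) + 4 / (m : ℝ) < m := by
  induction m, hm using Nat.le_induction with
  | base =>
    have h : harmonic 5 = 137 / 60 := by
      rw [harmonic]
      simp only [Finset.sum_range_succ, Finset.sum_range_zero]
      norm_num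
    change 4 * ((harmonic 5 : ℝ) - 1) + 4 / ((6 : ℕ) : ℝ) < ((6 : ℕ) : ℝ)
    rw [h]
    norm_num
  | succ m hm ih =>
    obtain ⟨k, rfl⟩ : ∃ k, m = k + 1 := ⟨m - 1, by omega⟩
    rw [Nat.add_sub_cancel] at ih ⊢
    rw [harmonic_succ]
    push_cast at ih ⊢
    have hk : (5 : ℝ) ≤ k := by exact_mod_cast (by omega : 5 ≤ k)
    have h1 : 4 / ((k : ℝ) + 1 + 1) < 1 := by
      rw [div_lt_one (by linarith)]
      linarith
    have h2 : 4 / ((k : ℝ) + 1) = 4 * ((k : ℝ) + 1)⁻¹ := div_eq_mul_inv _ _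
    rw [h2] at ih
    linarith

end CorBM

/-- Module `LB/CorB`. -/
theorem stmtCorB : StmtCorB := by
  intro m hm
  have h1 := CorBM.aux m hm
  obtain ⟨k, rfl⟩ : ∃ k, m = k + 1 := ⟨m - 1, by omega⟩
  rw [Nat.add_sub_cancel] at h1 ⊢
  have hk : (5 : ℝ) ≤ k := by exact_mod_cast (by omega : 5 ≤ k)
  have hm0 : 0 < (k : ℝ) + 1 := by linarith
  rw [harmonic_succ]
  push_cast at h1 ⊢
  generalize (harmonic k : ℝ) = H at *
  have h2 : (H - 1) + 2 * ((k : ℝ) + 1)⁻¹ < √((H - 1) ^ 2 + 1) := by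
    apply Real.lt_sqrt_of_sq_lt
    have h3 : 4 * (H - 1) * ((k : ℝ) + 1)⁻¹ + 4 * (((k : ℝ) + 1)⁻¹) ^ 2 < 1 := by
      have h4 : 4 * (H - 1) * ((k : ℝ) + 1)⁻¹ + 4 * (((k : ℝ) + 1)⁻¹) ^ 2 =
          (4 * (H - 1) + 4 / ((k : ℝ) + 1)) / ((k : ℝ) + 1) := by
        field_simp
      rw [h4, div_lt_one hm0]
      exact h1
    nlinarith [h3]
  linarith

end Pool.Agent.MP_a4c1f4_lc.LB
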