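import Pool.Agent.Lib.MP_a4c1f4_lc.LB.Spec

/-!
# The asymptotic corollary
-/

namespace Pool.Agent.MP_a4c1f4_lc.LB

open Finset

namespace CorCM

theorem transport (m' m : ℕ) (h : m' = m) (T : ℝ)
    (H : ∃ (N : Type) (_ : MetricSpace N) (s : Fin m' → N), Function.Injective s ∧
      ∀ c : ℝ, Competitive s c → T ≤ c) :
    ∃ (N : Type) (_ : MetricSpace N) (s : Fin m → N), Function.Injective s ∧
      ∀ c : ℝ, Competitive s c → T ≤ c := by
  subst h
  exact H

end CorCM

/-- Module `LB/CorC`. -/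
theorem stmtCorC (h1 : StmtMain) (h2 : StmtAsym) (h3 : StmtHrb) : StmtCorC := by
  intro ε hε
  have hε1 : 0 < min ε 1 := lt_min hε one_pos
  filter_upwards [h2 (min ε 1) hε1 (min_le_right _ _), Filter.eventually_ge_atTop 16] with m hm hm16
  obtain ⟨hl, hk, x, hx, hc⟩ := hm
  refine CorCM.transport (m / 2 + (m - m / 2)) m (by omega) _ ?_
  obtain ⟨N, inst, s, hs, hN⟩ := h1 (m / 2) (m - m / 2) hl hk x hx
  refine ⟨N, inst, s, hs, ?_⟩
  intro c hcomp
  have h4 := hc c (hN c hcomp)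
  have hm' : (16 : ℝ) ≤ m := by exact_mod_cast hm16
  have h5 : 1 ≤ Real.log m := by
    rw [Real.le_log_iff_exp_le (by linarith)]
    have := Real.exp_one_lt_d9
    linarith
  have h6 : 0 ≤ Real.log (Real.log m) := Real.log_nonneg h5
  rw [h3.1 m]
  have h7 : (2 - ε) * Real.log (Real.log m) ≤ (2 - min ε 1) * Real.log (Real.log m) :=
    mul_le_mul_of_nonneg_right (by linarith [min_le_left ε 1]) h6
  linarith

end Pool.Agent.MP_a4c1f4_lc.LB
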