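import Mathlib

set_option linter.all false

/-!
Lower bound for randomized online assignment: stars with two arm lengths.
Definitions shared by all the files of this folder.
-/

namespace Pool.Agent.MP_a4c1f4_lc.LB

open Finset

/-- The sites chosen by the online rule `A` for the requests `l`. Lists of requests are
written with the most recent request first: `A x l` is the site serving the request `x` when
`l` is the list of the earlier requests. -/
def assigned {N : Type} {m : ℕ} (A : N → List N → Fin m) : List N → List (Fin m)
  | [] => []
  | x :: l => A x l :: assigned A l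

/-- The rule `A` never uses a site twice (on at most `m` requests). -/
def Valid {N : Type} {m : ℕ} (A : N → List N → Fin m) : Prop :=
  ∀ l : List N, l.length ≤ m → (assigned A l).Nodup

/-- The cost of serving the requests `l` by the sites `τ`. -/
noncomputable def cost {N : Type} [MetricSpace N] {m : ℕ} (s : Fin m → N) (l : List N)
    (τ : List (Fin m)) : ℝ := (List.zipWith (fun x j => dist x (s j)) l τ).sum

/-- There is a randomized online algorithm (a probability space of valid deterministic online
rules) for the metric space `N` with the `m` sites `s`, whose expected cost on every list of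
at most `m` requests is at most `c` times the cost of every assignment of these requests to
distinct sites. -/
def Competitive {N : Type} [MetricSpace N] {m : ℕ} (s : Fin m → N) (c : ℝ) : Prop :=
  ∃ (Ω : Type) (_ : MeasurableSpace Ω) (μ : MeasureTheory.Measure Ω)
    (_ : MeasureTheory.IsProbabilityMeasure μ) (A : Ω → N → List N → Fin m),
    (∀ x l, Measurable (fun ω => A ω x l)) ∧ (∀ ω, Valid (A ω)) ∧
    ∀ (l : List N) (τ : List (Fin m)), l.length ≤ m → τ.length = l.length → τ.Nodup →
      ∫ ω, cost s l (assigned (A ω) l) ∂μ ≤ c * cost s l τ

/-! ### The star -/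

/-- Distances in the star: `none` is the centre, `some i` is the end of the arm `i`, of
length `a i`. -/
def sd {m : ℕ} (a : Fin m → ℝ) : Option (Fin m) → Option (Fin m) → ℝ
  | none, none => 0
  | none, some i => a i
  | some i, none => a i
  | some i, some j => if i = j then 0 else a i + a j

/-- The star as a metric space. -/
@[reducible] noncomputable def starMS {m : ℕ} (a : Fin m → ℝ) (ha : ∀ i, 0 < a i) :
    MetricSpace (Option (Fin m)) where
  dist := sd a
  dist_self x := by cases x <;> simp [sd]
  dist_comm x y := by
    cases x <;> cases y <;> simp [sd, eq_comm]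
    split_ifs <;> ring
  dist_triangle x y z := by
    rcases x with _ | i <;> rcases y with _ | j <;> rcases z with _ | k <;> simp only [sd]
    · norm_num
    · linarith
    · linarith [ha j]
    · split_ifs with h
      · subst h; linarith
      · linarith [ha j]
    · linarith
    · split_ifs with h
      · linarith [ha i, ha k]
      · linarith
    · split_ifs with h
      · subst h; linarith
      · linarith [ha j]
    · split_ifs with h1 h2 h3 h2 h3 h3 <;> first | (subst_vars; simp_all; done) | skip
      all_goals first | linarith [ha i, ha j, ha k] | skip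
  eq_of_dist_eq_zero := by
    intro x y h
    rcases x with _ | i <;> rcases y with _ | j <;> simp only [sd] at h
    · rfl
    · exact absurd h (ha j).ne'
    · exact absurd h (ha i).ne'
    · split_ifs at h with h1
      · rw [h1]
      · have := ha i; have := ha j; linarith

/-- Cost in the star with arms `a`, the site `j` being the leaf `some j`. -/
noncomputable def ac {m : ℕ} (a : Fin m → ℝ) (l : List (Option (Fin m)))
    (τ : List (Fin m)) : ℝ := (List.zipWith (fun x j => sd a x (some j)) l τ).sum

/-- The requests: first the centre, then the leaves `g 0`, ..., `g (t-1)`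
(most recent first). -/
def req {m : ℕ} (g : ℕ → Fin m) : ℕ → List (Option (Fin m))
  | 0 => [none]
  | t + 1 => some (g t) :: req g t

/-- The sites used after the requests `req g t`. -/
def used {m : ℕ} (A : Option (Fin m) → List (Option (Fin m)) → Fin m) (g : ℕ → Fin m)
    (t : ℕ) : Finset (Fin m) := (assigned A (req g t)).toFinset

/-- Indicator: the leaf `g t` is already used when it is requested. -/
noncomputable def hit {m : ℕ} (A : Option (Fin m) → List (Option (Fin m)) → Fin m)
    (g : ℕ → Fin m) (t : ℕ) : ℝ := if g t ∈ used A g t then 1 else 0

/-- Arm lengths: `l` short arms of length `x`, then `k` long arms of length `1`. -/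
noncomputable def arm (l k : ℕ) (x : ℝ) (i : Fin (l + k)) : ℝ := if (i : ℕ) < l then x else 1

/-- Order `B`: the short arms in the order `σ`, then the long arms in the order `π`
(`d` is a dummy value). -/
def gB {l k : ℕ} (d : Fin (l + k)) (σ : Equiv.Perm (Fin l)) (π : Equiv.Perm (Fin k)) (t : ℕ) :
    Fin (l + k) :=
  if h : t < l then Fin.castAdd k (σ ⟨t, h⟩)
  else if h' : t - l < k then Fin.natAdd l (π ⟨t - l, h'⟩) else d

/-- Order `T j`: `j` short arms in the order `σ`, then all the long arms, then the remaining
short arms in the order `σ` (`d` is a dummy value). -/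
def gT {l k : ℕ} (d : Fin (l + k)) (j : ℕ) (σ : Equiv.Perm (Fin l)) (t : ℕ) : Fin (l + k) :=
  if h : t < l ∧ t < j then Fin.castAdd k (σ ⟨t, h.1⟩)
  else if h' : t - j < k then Fin.natAdd l ⟨t - j, h'⟩
  else if h'' : t - k < l then Fin.castAdd k (σ ⟨t - k, h''⟩) else d

/-- Harmonic numbers. -/
noncomputable def hr (n : ℕ) : ℝ := ∑ i ∈ range n, 1 / ((i : ℝ) + 1)

open Classical in
/-- Probability (for a random order of the short arms) that a long arm is used after the
centre and `t` short arms were requested. -/
noncomputable def qq {l k : ℕ} (d : Fin (l + k))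
    (A : Option (Fin (l + k)) → List (Option (Fin (l + k))) → Fin (l + k)) (t : ℕ) : ℝ :=
  (∑ σ : Equiv.Perm (Fin l),
    if ∃ s : Fin k, Fin.natAdd l s ∈ used A (gB d σ 1) t then (1 : ℝ) else 0) /
    (l.factorial : ℝ)

/-- The rates `x / (l - t)`. -/
noncomputable def uu (l : ℕ) (x : ℝ) (t : ℕ) : ℝ := x / ((l : ℝ) - t)

/-- The weights of the orders `T j`. -/
noncomputable def vv (l : ℕ) (x : ℝ) (j : ℕ) : ℝ :=
  uu l x j * ∏ i ∈ Ico (j + 1) l, (1 + uu l x i)

/-- The product `P`. -/
noncomputable def PP (l : ℕ) (x : ℝ) : ℝ := ∏ i ∈ range l, (1 + uu l x i)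

end Pool.Agent.MP_a4c1f4_lc.LB
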