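import Pool.Agent.Lib.MP_a4c1f4_lc.LB.Spec

set_option linter.all false

/-!
Expectation of the hits in the order `B`.
-/

namespace Pool.Agent.MP_a4c1f4_lc.LB

open Finset

namespace EBM

open Classical in
/-- consequence of the symmetry of random permutations -/
theorem sym_le (h3 : StmtSym) {n t : ℕ} (ht : t < n)
    (F : Equiv.Perm (Fin n) → Finset (Fin n))
    (hF : ∀ σ σ' : Equiv.Perm (Fin n), (∀ i : Fin n, (i : ℕ) < t → σ i = σ' i) → F σ = F σ')
    (b : Equiv.Perm (Fin n) → ℝ)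
    (hb : ∀ σ, b σ ≤ 0 ∨ (b σ ≤ 1 ∧ ∃ i : Fin n, t ≤ (i : ℕ) ∧ σ i ∈ F σ)) :
    ∑ σ, b σ ≤ ((n : ℝ) - t) * ∑ σ : Equiv.Perm (Fin n),
      (if σ ⟨t, ht⟩ ∈ F σ then (1 : ℝ) else 0) := by
  rw [h3 n t ht F hF]
  refine Finset.sum_le_sum fun σ _ => ?_
  have h0 : ∀ i ∈ (Finset.univ : Finset (Fin n)),
      (0 : ℝ) ≤ (if t ≤ (i : ℕ) ∧ σ i ∈ F σ then (1 : ℝ) else 0) := by
    intro i _
    split_ifs <;> norm_num
  rcases hb σ with h | ⟨h, i, hi, hiF⟩
  · exact h.trans (Finset.sum_nonneg h0)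
  · refine h.trans ?_
    have h4 := Finset.single_le_sum h0 (Finset.mem_univ i)
    rw [if_pos ⟨hi, hiF⟩] at h4
    exact h4

theorem hr_reflect (n : ℕ) : ∑ s ∈ range n, 1 / ((n : ℝ) - s) = hr n := by
  unfold hr
  rw [← Finset.sum_range_reflect]
  refine Finset.sum_congr rfl fun s hs => ?_
  rw [Finset.mem_range] at hs
  congr 1
  have h1 : ((n - 1 - s : ℕ) : ℝ) = (n : ℝ) - 1 - s := by
    rw [Nat.cast_sub (by omega), Nat.cast_sub (by omega)]
    simp
  rw [h1]
  ring

variable {l k : ℕ} (d : Fin (l + k)) (A : Rl (l + k))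

theorem gB_lt (σ : Equiv.Perm (Fin l)) (π : Equiv.Perm (Fin k)) {t : ℕ} (ht : t < l) :
    gB d σ π t = Fin.castAdd k (σ ⟨t, ht⟩) := dif_pos ht

theorem gB_ge (σ : Equiv.Perm (Fin l)) (π : Equiv.Perm (Fin k)) {s : ℕ} (hs : s < k) :
    gB d σ π (l + s) = Fin.natAdd l (π ⟨s, hs⟩) := by
  unfold gB
  rw [dif_neg (by omega)]
  have h1 : l + s - l < k := by omega
  rw [dif_pos h1]
  congr 2
  apply Fin.ext
  simp

/-- the number of long arms in use is positive -/
def lg (U : Finset (Fin (l + k))) : Prop := ∃ s : Fin k, Fin.natAdd l s ∈ U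

open Classical in
theorem qq_eq (t : ℕ) : (l.factorial : ℝ) * qq d A t =
    ∑ σ : Equiv.Perm (Fin l), (if lg (used A (gB d σ 1) t) then (1 : ℝ) else 0) := by
  unfold qq
  rw [mul_div_cancel₀]
  · refine Finset.sum_congr rfl fun σ _ => ?_
    unfold lg
    congr
  · exact_mod_cast Nat.factorial_ne_zero l

theorem card_perm (n : ℕ) : ∑ σ : Equiv.Perm (Fin n), (1 : ℝ) = (n.factorial : ℝ) := by
  rw [Finset.sum_const, Finset.card_univ, Fintype.card_perm, Fintype.card_fin]
  simp

/-- first part: requests at short arms while no long arm was requested -/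
theorem part1 (h1 : StmtCard) (h2 : StmtNE) (h3 : StmtSym) (h4 : StmtInj) (hA : Valid A)
    {t : ℕ} (ht : t < l) : (l.factorial : ℝ) * (1 - qq d A t) ≤
      ((l : ℝ) - t) * ∑ σ : Equiv.Perm (Fin l), hit A (gB d σ 1) t := by
  classical
  have hF : ∀ σ σ' : Equiv.Perm (Fin l), (∀ i : Fin l, (i : ℕ) < t → σ i = σ' i) →
      used A (gB d σ 1) t = used A (gB d σ' 1) t := by
    intro σ σ' h
    refine h1.2.2 _ A _ _ t fun i hi => ?_
    rw [gB_lt d σ 1 (hi.trans ht), gB_lt d σ' 1 (hi.trans ht), h ⟨i, hi.trans ht⟩ hi]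
  have h5 := sym_le h3 ht
    (fun σ => Finset.univ.filter fun i => Fin.castAdd k i ∈ used A (gB d σ 1) t)
    (fun σ σ' h => by simp only [hF σ σ' h])
    (fun σ => 1 - (if lg (used A (gB d σ 1) t) then (1 : ℝ) else 0)) (by
      intro σ
      by_cases hlg : lg (used A (gB d σ 1) t)
      · left
        rw [if_pos hlg]
        norm_num
      · right
        rw [if_neg hlg]
        refine ⟨by norm_num, ?_⟩
        obtain ⟨i, hi, hil, hiU⟩ := h2 (l + k) A hA (gB d σ 1) (h4.1 l k d σ 1) t (by omega)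
        by_cases hil' : i < l
        · refine ⟨⟨i, hil'⟩, hi, ?_⟩
          rw [gB_lt d σ 1 hil'] at hiU
          simpa using hiU
        · exfalso
          apply hlg
          obtain ⟨s, rfl⟩ : ∃ s, i = l + s := ⟨i - l, by omega⟩
          rw [gB_ge d σ 1 (by omega)] at hiU
          exact ⟨_, hiU⟩)
  rw [Finset.sum_sub_distrib, card_perm, ← qq_eq] at h5
  have h6 : ∀ σ : Equiv.Perm (Fin l), hit A (gB d σ 1) t =
      if σ ⟨t, ht⟩ ∈ (Finset.univ.filter fun i => Fin.castAdd k i ∈ used A (gB d σ 1) t)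
        then (1 : ℝ) else 0 := by
    intro σ
    unfold hit
    rw [gB_lt d σ 1 ht]
    simp only [Finset.mem_filter, Finset.mem_univ, true_and]
  rw [Finset.sum_congr rfl fun σ _ => h6 σ]
  linarith [h5]

/-- second part: requests at long arms when all short arms were requested -/
theorem part2 (h1 : StmtCard) (h2 : StmtNE) (h3 : StmtSym) (h4 : StmtInj) (hA : Valid A)
    (σ : Equiv.Perm (Fin l)) {s : ℕ} (hs : s < k) : (k.factorial : ℝ) ≤
      ((k : ℝ) - s) * ∑ π : Equiv.Perm (Fin k), hit A (gB d σ π) (l + s) := by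
  classical
  have hF : ∀ π π' : Equiv.Perm (Fin k), (∀ i : Fin k, (i : ℕ) < s → π i = π' i) →
      used A (gB d σ π) (l + s) = used A (gB d σ π') (l + s) := by
    intro π π' h
    refine h1.2.2 _ A _ _ (l + s) fun i hi => ?_
    by_cases hil : i < l
    · rw [gB_lt d σ π hil, gB_lt d σ π' hil]
    · obtain ⟨s', rfl⟩ : ∃ s', i = l + s' := ⟨i - l, by omega⟩
      rw [gB_ge d σ π (show s' < k by omega), gB_ge d σ π' (show s' < k by omega),
        h ⟨s', by omega⟩ (show s' < s by omega)]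
  have h5 := sym_le h3 hs
    (fun π => Finset.univ.filter fun i => Fin.natAdd l i ∈ used A (gB d σ π) (l + s))
    (fun π π' h => by simp only [hF π π' h]) (fun _ => 1) (by
      intro π
      right
      refine ⟨le_rfl, ?_⟩
      obtain ⟨i, hi, hil, hiU⟩ := h2 (l + k) A hA (gB d σ π) (h4.1 l k d σ π) (l + s) (by omega)
      obtain ⟨s', rfl⟩ : ∃ s', i = l + s' := ⟨i - l, by omega⟩
      rw [gB_ge d σ π (show s' < k by omega)] at hiU
      refine ⟨⟨s', by omega⟩, by simp only; omega, ?_⟩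
      simpa using hiU)
  rw [card_perm] at h5
  have h6 : ∀ π : Equiv.Perm (Fin k), hit A (gB d σ π) (l + s) =
      if π ⟨s, hs⟩ ∈ (Finset.univ.filter fun i => Fin.natAdd l i ∈ used A (gB d σ π) (l + s))
        then (1 : ℝ) else 0 := by
    intro π
    unfold hit
    rw [gB_ge d σ π hs]
    simp only [Finset.mem_filter, Finset.mem_univ, true_and]
  rw [Finset.sum_congr rfl fun π _ => h6 π]
  exact h5

theorem hit_eq (h1 : StmtCard) (σ : Equiv.Perm (Fin l)) (π : Equiv.Perm (Fin k)) {t : ℕ}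
    (ht : t < l) : hit A (gB d σ π) t = hit A (gB d σ 1) t := by
  have h5 : used A (gB d σ π) t = used A (gB d σ 1) t := by
    refine h1.2.2 _ A _ _ t fun i hi => ?_
    rw [gB_lt d σ π (hi.trans ht), gB_lt d σ 1 (hi.trans ht)]
  unfold hit
  rw [h5, gB_lt d σ π ht, gB_lt d σ 1 ht]

theorem arm_short (x : ℝ) (i : Fin l) : arm l k x (Fin.castAdd k i) = x := by
  unfold arm
  rw [if_pos]
  simp

theorem arm_long (x : ℝ) (i : Fin k) : arm l k x (Fin.natAdd l i) = 1 := by
  unfold arm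
  rw [if_neg]
  simp

end EBM

theorem stmtEB (h1 : StmtCard) (h2 : StmtNE) (h3 : StmtSym) (h4 : StmtInj) : StmtEB := by
  intro l k hl hk x hx d A hA
  have hlf : (0 : ℝ) < (l.factorial : ℝ) := by exact_mod_cast Nat.factorial_pos l
  have hkf : (0 : ℝ) < (k.factorial : ℝ) := by exact_mod_cast Nat.factorial_pos k
  rw [le_div_iff₀ (mul_pos hlf hkf)]
  have e0 : (∑ σ : Equiv.Perm (Fin l), ∑ π : Equiv.Perm (Fin k), ∑ t ∈ range (l + k),
        2 * arm l k x (gB d σ π t) * hit A (gB d σ π) t) =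
      ∑ t ∈ range l, 2 * x * ((k.factorial : ℝ) *
        ∑ σ : Equiv.Perm (Fin l), hit A (gB d σ 1) t) +
      ∑ s ∈ range k, 2 * ∑ σ : Equiv.Perm (Fin l), ∑ π : Equiv.Perm (Fin k),
        hit A (gB d σ π) (l + s) := by
    have e1 : ∀ (σ : Equiv.Perm (Fin l)) (π : Equiv.Perm (Fin k)), ∑ t ∈ range (l + k),
        2 * arm l k x (gB d σ π t) * hit A (gB d σ π) t =
        ∑ t ∈ range l, 2 * x * hit A (gB d σ 1) t +
          ∑ s ∈ range k, 2 * hit A (gB d σ π) (l + s) := by
      intro σ π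
      rw [Finset.sum_range_add]
      congr 1
      · refine Finset.sum_congr rfl fun t ht => ?_
        rw [Finset.mem_range] at ht
        rw [EBM.gB_lt d σ π ht, EBM.arm_short, EBM.hit_eq d A h1 σ π ht]
      · refine Finset.sum_congr rfl fun s hs => ?_
        rw [Finset.mem_range] at hs
        rw [EBM.gB_ge d σ π hs, EBM.arm_long, mul_one]
    simp only [e1, Finset.sum_add_distrib]
    congr 1
    · simp only [Finset.sum_const, Finset.card_univ, Fintype.card_perm, Fintype.card_fin,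
        nsmul_eq_mul]
      rw [← Finset.mul_sum, Finset.sum_comm, Finset.mul_sum]
      refine Finset.sum_congr rfl fun t _ => ?_
      rw [← Finset.mul_sum]
      ring
    · have e2 : ∀ σ : Equiv.Perm (Fin l), ∑ π : Equiv.Perm (Fin k), ∑ s ∈ range k,
          2 * hit A (gB d σ π) (l + s) = ∑ s ∈ range k, ∑ π : Equiv.Perm (Fin k),
            2 * hit A (gB d σ π) (l + s) := fun σ => Finset.sum_comm
      rw [Finset.sum_congr rfl fun σ _ => e2 σ, Finset.sum_comm]
      refine Finset.sum_congr rfl fun s _ => ?_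
      rw [Finset.mul_sum]
      refine Finset.sum_congr rfl fun σ _ => ?_
      rw [Finset.mul_sum]
  rw [e0, add_mul]
  refine add_le_add ?_ ?_
  · rw [Finset.sum_mul]
    refine Finset.sum_le_sum fun t ht => ?_
    rw [Finset.mem_range] at ht
    have h5 := EBM.part1 d A h1 h2 h3 h4 hA ht
    have h6 : (0 : ℝ) < (l : ℝ) - t := by
      have : (t : ℝ) < l := by exact_mod_cast ht
      linarith
    have h7 : (l.factorial : ℝ) * (1 - qq d A t) / ((l : ℝ) - t) ≤
        ∑ σ : Equiv.Perm (Fin l), hit A (gB d σ 1) t := by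
      rw [div_le_iff₀ h6]
      linarith
    have h8 : 2 * uu l x t * (1 - qq d A t) * ((l.factorial : ℝ) * (k.factorial : ℝ)) =
        2 * x * ((k.factorial : ℝ) * ((l.factorial : ℝ) * (1 - qq d A t) / ((l : ℝ) - t))) := by
      unfold uu
      field_simp
    rw [h8]
    exact mul_le_mul_of_nonneg_left (mul_le_mul_of_nonneg_left h7 hkf.le) (by positivity)
  · rw [← EBM.hr_reflect k, Finset.mul_sum, Finset.sum_mul]
    refine Finset.sum_le_sum fun s hs => ?_
    rw [Finset.mem_range] at hs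
    have h6 : (0 : ℝ) < (k : ℝ) - s := by
      have : (s : ℝ) < k := by exact_mod_cast hs
      linarith
    have h7 : (l.factorial : ℝ) * ((k.factorial : ℝ) / ((k : ℝ) - s)) ≤
        ∑ σ : Equiv.Perm (Fin l), ∑ π : Equiv.Perm (Fin k), hit A (gB d σ π) (l + s) := by
      have h8 : ∑ σ : Equiv.Perm (Fin l), (k.factorial : ℝ) / ((k : ℝ) - s) =
          (l.factorial : ℝ) * ((k.factorial : ℝ) / ((k : ℝ) - s)) := by
        rw [← EBM.card_perm l, Finset.sum_mul]
        simp
      rw [← h8]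
      refine Finset.sum_le_sum fun σ _ => ?_
      rw [div_le_iff₀ h6]
      have h9 := EBM.part2 d A h1 h2 h3 h4 hA σ hs
      linarith
    calc 2 * (1 / ((k : ℝ) - s)) * ((l.factorial : ℝ) * (k.factorial : ℝ))
        = 2 * ((l.factorial : ℝ) * ((k.factorial : ℝ) / ((k : ℝ) - s))) := by ring
      _ ≤ _ := mul_le_mul_of_nonneg_left h7 (by norm_num)

end Pool.Agent.MP_a4c1f4_lc.LB
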