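import Pool.Agent.Lib.MP_a4c1f4_lc.LB.EB

set_option linter.all false

/-!
Expectation of the hits in the orders `T j`.
-/

namespace Pool.Agent.MP_a4c1f4_lc.LB

open Finset

namespace ETM

variable {l k : ℕ} (d : Fin (l + k)) (A : Rl (l + k))

theorem gT_lt (j : ℕ) (σ : Equiv.Perm (Fin l)) {t : ℕ} (ht : t < l) (htj : t < j) :
    gT (k := k) d j σ t = Fin.castAdd k (σ ⟨t, ht⟩) := dif_pos ⟨ht, htj⟩

theorem gT_mid (j : ℕ) (σ : Equiv.Perm (Fin l)) {s : ℕ} (hs : s < k) :
    gT (k := k) d j σ (j + s) = Fin.natAdd l ⟨s, hs⟩ := by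
  unfold gT
  rw [dif_neg (by omega)]
  have h1 : j + s - j < k := by omega
  rw [dif_pos h1]
  congr 2
  omega

theorem gT_last (j : ℕ) (σ : Equiv.Perm (Fin l)) {i : ℕ} (hi : i < l) (hij : j ≤ i) :
    gT (k := k) d j σ (k + i) = Fin.castAdd k (σ ⟨i, hi⟩) := by
  unfold gT
  rw [dif_neg (by omega), dif_neg (by omega)]
  have h1 : k + i - k < l := by omega
  rw [dif_pos h1]
  congr 3
  omega

theorem used_eq (h1 : StmtCard) {j : ℕ} (hj : j ≤ l) (σ : Equiv.Perm (Fin l)) {t : ℕ}
    (ht : t ≤ j) : used A (gT d j σ) t = used A (gB d σ 1) t := by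
  refine h1.2.2 _ A _ _ t fun i hi => ?_
  rw [gT_lt d j σ (show i < l by omega) (show i < j by omega),
    EBM.gB_lt d σ 1 (show i < l by omega)]

theorem hit_eq (h1 : StmtCard) {j : ℕ} (hj : j ≤ l) (σ : Equiv.Perm (Fin l)) {t : ℕ}
    (ht : t < j) : hit A (gT d j σ) t = hit A (gB d σ 1) t := by
  unfold hit
  rw [used_eq d A h1 hj σ ht.le, gT_lt d j σ (show t < l by omega) ht,
    EBM.gB_lt d σ 1 (show t < l by omega)]

theorem hit_nonneg (g : ℕ → Fin (l + k)) (t : ℕ) : 0 ≤ hit A g t := by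
  unfold hit
  split_ifs <;> norm_num

open Classical in
/-- second part: the requests at the long arms -/
theorem part2 (h1 : StmtCard) {j : ℕ} (hj : j ≤ l) (σ : Equiv.Perm (Fin l)) :
    (if EBM.lg (used A (gB d σ 1) j) then (1 : ℝ) else 0) ≤
      ∑ s ∈ range k, hit A (gT d j σ) (j + s) := by
  split_ifs with h
  · obtain ⟨s, hs⟩ := h
    rw [← used_eq d A h1 hj σ le_rfl] at hs
    have h5 := h1.2.1 _ A (gT d j σ) j s.1 hs
    have h6 : hit A (gT d j σ) (j + s.1) = 1 := by
      unfold hit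
      rw [if_pos]
      rw [gT_mid d j σ s.2]
      exact h5
    rw [← h6]
    exact Finset.single_le_sum (f := fun s => hit A (gT d j σ) (j + s))
      (fun i _ => hit_nonneg A _ _) (Finset.mem_range.2 s.2)
  · exact Finset.sum_nonneg fun i _ => hit_nonneg A _ _

/-- third part: the requests at the remaining short arms -/
theorem part3 (h1 : StmtCard) (h2 : StmtNE) (h3 : StmtSym) (h4 : StmtInj) (hA : Valid A)
    {j : ℕ} (hj : j ≤ l) {i : ℕ} (hi : i < l) (hij : j ≤ i) : (l.factorial : ℝ) ≤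
      ((l : ℝ) - i) * ∑ σ : Equiv.Perm (Fin l), hit A (gT d j σ) (k + i) := by
  classical
  have hF : ∀ σ σ' : Equiv.Perm (Fin l), (∀ i' : Fin l, (i' : ℕ) < i → σ i' = σ' i') →
      used A (gT d j σ) (k + i) = used A (gT d j σ') (k + i) := by
    intro σ σ' h
    refine h1.2.2 _ A _ _ (k + i) fun t ht => ?_
    by_cases htj : t < j
    · rw [gT_lt d j σ (show t < l by omega) htj, gT_lt d j σ' (show t < l by omega) htj,
        h ⟨t, by omega⟩ (show t < i by omega)]
    · by_cases htk : t < j + k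
      · obtain ⟨s, rfl⟩ : ∃ s, t = j + s := ⟨t - j, by omega⟩
        rw [gT_mid d j σ (show s < k by omega), gT_mid d j σ' (show s < k by omega)]
      · obtain ⟨i', rfl⟩ : ∃ i', t = k + i' := ⟨t - k, by omega⟩
        rw [gT_last d j σ (show i' < l by omega) (show j ≤ i' by omega),
          gT_last d j σ' (show i' < l by omega) (show j ≤ i' by omega),
          h ⟨i', by omega⟩ (show i' < i by omega)]
  have h5 := EBM.sym_le h3 hi
    (fun σ => Finset.univ.filter fun i' => Fin.castAdd k i' ∈ used A (gT d j σ) (k + i))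
    (fun σ σ' h => by simp only [hF σ σ' h]) (fun _ => 1) (by
      intro σ
      right
      refine ⟨le_rfl, ?_⟩
      obtain ⟨t, ht, htl, htU⟩ := h2 (l + k) A hA (gT d j σ) (h4.2 l k d j hj σ) (k + i)
        (by omega)
      obtain ⟨i', rfl⟩ : ∃ i', t = k + i' := ⟨t - k, by omega⟩
      rw [gT_last d j σ (show i' < l by omega) (show j ≤ i' by omega)] at htU
      refine ⟨⟨i', by omega⟩, by simp only; omega, ?_⟩
      simpa using htU)
  rw [EBM.card_perm] at h5
  have h6 : ∀ σ : Equiv.Perm (Fin l), hit A (gT d j σ) (k + i) =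
      if σ ⟨i, hi⟩ ∈ (Finset.univ.filter fun i' => Fin.castAdd k i' ∈
        used A (gT d j σ) (k + i)) then (1 : ℝ) else 0 := by
    intro σ
    unfold hit
    rw [gT_last d j σ hi hij]
    simp only [Finset.mem_filter, Finset.mem_univ, true_and]
  rw [Finset.sum_congr rfl fun σ _ => h6 σ]
  exact h5

end ETM

theorem stmtET (h1 : StmtCard) (h2 : StmtNE) (h3 : StmtSym) (h4 : StmtInj) : StmtET := by
  classical
  intro l k hl hk x hx d A hA j hj
  have hlf : (0 : ℝ) < (l.factorial : ℝ) := by exact_mod_cast Nat.factorial_pos l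
  rw [le_div_iff₀ hlf]
  obtain ⟨n, hn⟩ : ∃ n, l = j + n := ⟨l - j, by omega⟩
  have hlj : l - j = n := by omega
  have e1 : ∀ σ : Equiv.Perm (Fin l), ∑ t ∈ range (l + k),
      2 * arm l k x (gT d j σ t) * hit A (gT d j σ) t =
      ∑ t ∈ range j, 2 * x * hit A (gB d σ 1) t +
        2 * ∑ s ∈ range k, hit A (gT d j σ) (j + s) +
        ∑ i ∈ range n, 2 * x * hit A (gT d j σ) (k + (j + i)) := by
    intro σ
    have e2 : range (l + k) = range ((j + k) + n) := congrArg range (by omega)
    rw [e2, Finset.sum_range_add, Finset.sum_range_add, Finset.mul_sum]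
    congr 1
    · congr 1
      · refine Finset.sum_congr rfl fun t ht => ?_
        rw [Finset.mem_range] at ht
        rw [ETM.gT_lt d j σ (show t < l by omega) ht, EBM.arm_short,
          ETM.hit_eq d A h1 hj.le σ ht]
      · refine Finset.sum_congr rfl fun s hs => ?_
        rw [Finset.mem_range] at hs
        rw [ETM.gT_mid d j σ hs, EBM.arm_long, mul_one]
    · refine Finset.sum_congr rfl fun i hi => ?_
      rw [Finset.mem_range] at hi
      have e3 : j + k + i = k + (j + i) := by omega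
      rw [e3, ETM.gT_last d j σ (show j + i < l by omega) (show j ≤ j + i by omega),
        EBM.arm_short]
  rw [Finset.sum_congr rfl fun σ _ => e1 σ, Finset.sum_add_distrib, Finset.sum_add_distrib,
    add_mul, add_mul]
  refine add_le_add (add_le_add ?_ ?_) ?_
  · rw [Finset.sum_comm, Finset.sum_mul]
    refine Finset.sum_le_sum fun t ht => ?_
    rw [Finset.mem_range] at ht
    have h5 := EBM.part1 d A h1 h2 h3 h4 hA (show t < l by omega)
    have h6 : (0 : ℝ) < (l : ℝ) - t := by
      have : (t : ℝ) < l := by exact_mod_cast (show t < l by omega)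
      linarith
    have h7 : (l.factorial : ℝ) * (1 - qq d A t) / ((l : ℝ) - t) ≤
        ∑ σ : Equiv.Perm (Fin l), hit A (gB d σ 1) t := by
      rw [div_le_iff₀ h6]
      linarith
    have h8 : 2 * uu l x t * (1 - qq d A t) * (l.factorial : ℝ) =
        2 * x * ((l.factorial : ℝ) * (1 - qq d A t) / ((l : ℝ) - t)) := by
      unfold uu
      field_simp
    rw [h8, ← Finset.mul_sum]
    exact mul_le_mul_of_nonneg_left h7 (by positivity)
  · have h5 : (l.factorial : ℝ) * qq d A j ≤ ∑ σ : Equiv.Perm (Fin l),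
        ∑ s ∈ range k, hit A (gT d j σ) (j + s) := by
      rw [EBM.qq_eq]
      exact Finset.sum_le_sum fun σ _ => ETM.part2 d A h1 hj.le σ
    rw [← Finset.mul_sum]
    linarith
  · rw [hlj, ← EBM.hr_reflect n, Finset.sum_comm, Finset.mul_sum, Finset.sum_mul]
    refine Finset.sum_le_sum fun i hi => ?_
    rw [Finset.mem_range] at hi
    have h5 := ETM.part3 d A h1 h2 h3 h4 hA hj.le (show j + i < l by omega)
      (show j ≤ j + i by omega)
    have h9 : (l : ℝ) - ((j + i : ℕ) : ℝ) = (n : ℝ) - i := by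
      rw [hn]
      push_cast
      ring
    rw [h9] at h5
    have h6 : (0 : ℝ) < (n : ℝ) - i := by
      have : (i : ℝ) < n := by exact_mod_cast hi
      linarith
    have h7 : (l.factorial : ℝ) / ((n : ℝ) - i) ≤
        ∑ σ : Equiv.Perm (Fin l), hit A (gT d j σ) (k + (j + i)) := by
      rw [div_le_iff₀ h6]
      linarith
    rw [← Finset.mul_sum]
    calc 2 * x * (1 / ((n : ℝ) - i)) * (l.factorial : ℝ)
        = 2 * x * ((l.factorial : ℝ) / ((n : ℝ) - i)) := by ring
      _ ≤ _ := mul_le_mul_of_nonneg_left h7 (by positivity)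

end Pool.Agent.MP_a4c1f4_lc.LB
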