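import Pool.Agent.Lib.MP_a4c1f4_lc.LB.Spec

set_option linter.all false

/-!
Module `LB/Inj`: the orders `gB` and `gT` are injective.
-/

namespace Pool.Agent.MP_a4c1f4_lc.LB.InjM

open Finset
open Pool.Agent.MP_a4c1f4_lc.LB

lemma perm_ne {n : ℕ} (σ : Equiv.Perm (Fin n)) {a b : ℕ} (ha : a < n) (hb : b < n)
    (h : ((σ ⟨a, ha⟩ : Fin n) : ℕ) = ((σ ⟨b, hb⟩ : Fin n) : ℕ)) : a = b := by
  have h1 := σ.injective (Fin.ext h)
  exact congrArg Fin.val h1

lemma injB (l k : ℕ) (d : Fin (l + k)) (σ : Equiv.Perm (Fin l)) (π : Equiv.Perm (Fin k)) :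
    Set.InjOn (gB d σ π) (Set.Iio (l + k)) := by
  intro t ht t' ht' h
  rw [Set.mem_Iio] at ht ht'
  unfold gB at h
  by_cases h1 : t < l
  · by_cases h2 : t' < l
    · rw [dif_pos h1, dif_pos h2] at h
      have h3 := congrArg Fin.val h
      simp only [Fin.val_castAdd] at h3
      exact perm_ne σ h1 h2 h3
    · have h2' : t' - l < k := by omega
      rw [dif_pos h1, dif_neg h2, dif_pos h2'] at h
      have h3 := congrArg Fin.val h
      simp only [Fin.val_castAdd, Fin.val_natAdd] at h3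
      have := (σ ⟨t, h1⟩).2
      omega
  · have h1' : t - l < k := by omega
    by_cases h2 : t' < l
    · rw [dif_neg h1, dif_pos h1', dif_pos h2] at h
      have h3 := congrArg Fin.val h
      simp only [Fin.val_castAdd, Fin.val_natAdd] at h3
      have := (σ ⟨t', h2⟩).2
      omega
    · have h2' : t' - l < k := by omega
      rw [dif_neg h1, dif_pos h1', dif_neg h2, dif_pos h2'] at h
      have h3 := congrArg Fin.val h
      simp only [Fin.val_natAdd] at h3
      have h4 := perm_ne π h1' h2' (by omega)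
      omega

/-- The values of `gT`: short arm before the index `j`, long arm, short arm. -/
lemma valT (l k : ℕ) (d : Fin (l + k)) (j : ℕ) (hj : j ≤ l) (σ : Equiv.Perm (Fin l)) (t : ℕ)
    (ht : t < l + k) :
    (∃ h : t < l, t < j ∧ (gT d j σ t : Fin (l + k)).val = ((σ ⟨t, h⟩ : Fin l) : ℕ)) ∨
    (j ≤ t ∧ t < j + k ∧ (gT d j σ t : Fin (l + k)).val = l + (t - j)) ∨
    (∃ h : t - k < l, j + k ≤ t ∧
      (gT d j σ t : Fin (l + k)).val = ((σ ⟨t - k, h⟩ : Fin l) : ℕ)) := by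
  by_cases h1 : t < l ∧ t < j
  · left
    refine ⟨h1.1, h1.2, ?_⟩
    unfold gT
    rw [dif_pos h1]
    rfl
  · right
    by_cases h2 : t - j < k
    · left
      refine ⟨by omega, by omega, ?_⟩
      unfold gT
      rw [dif_neg h1, dif_pos h2]
      rfl
    · right
      have h3 : t - k < l := by omega
      refine ⟨h3, by omega, ?_⟩
      unfold gT
      rw [dif_neg h1, dif_neg h2, dif_pos h3]
      rfl

lemma injT (l k : ℕ) (d : Fin (l + k)) (j : ℕ) (hj : j ≤ l) (σ : Equiv.Perm (Fin l)) :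
    Set.InjOn (gT d j σ : ℕ → Fin (l + k)) (Set.Iio (l + k)) := by
  intro t ht t' ht' h
  rw [Set.mem_Iio] at ht ht'
  have hv := congrArg Fin.val h
  rcases valT l k d j hj σ t ht with ⟨h1, h2, h3⟩ | ⟨h1, h2, h3⟩ | ⟨h1, h2, h3⟩ <;>
  rcases valT l k d j hj σ t' ht' with ⟨g1, g2, g3⟩ | ⟨g1, g2, g3⟩ | ⟨g1, g2, g3⟩
  · exact perm_ne σ h1 g1 (by rw [← h3, ← g3]; exact hv)
  · have := (σ ⟨t, h1⟩).2
    omega
  · have := perm_ne σ h1 g1 (by rw [← h3, ← g3]; exact hv)
    omega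
  · have := (σ ⟨t', g1⟩).2
    omega
  · omega
  · have := (σ ⟨t' - k, g1⟩).2
    omega
  · have := perm_ne σ h1 g1 (by rw [← h3, ← g3]; exact hv)
    omega
  · have := (σ ⟨t - k, h1⟩).2
    omega
  · have := perm_ne σ h1 g1 (by rw [← h3, ← g3]; exact hv)
    omega

end Pool.Agent.MP_a4c1f4_lc.LB.InjM

namespace Pool.Agent.MP_a4c1f4_lc.LB

/-- both orders are injective -/
theorem stmtInj : StmtInj := ⟨InjM.injB, InjM.injT⟩

end Pool.Agent.MP_a4c1f4_lc.LB
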