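import Pool.Agent.Lib.MP_a4c1f4_lc.LB.Spec

set_option linter.all false

/-!
Integrability of the cost of a randomized online rule.
-/

namespace Pool.Agent.MP_a4c1f4_lc.LB

open Finset

theorem stmtIntg : StmtIntg := by
  intro m a Ω _ μ _ A hA l
  induction l with
  | nil =>
    have : (fun ω => ac a [] (assigned (A ω) [])) = fun _ => (0 : ℝ) := by
      funext ω
      simp [ac, assigned]
    rw [this]
    exact MeasureTheory.integrable_const _
  | cons x l ih =>
    have h1 : (fun ω => ac a (x :: l) (assigned (A ω) (x :: l))) =
        fun ω => sd a x (some (A ω x l)) + ac a l (assigned (A ω) l) := by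
      funext ω
      simp [ac, assigned]
    rw [h1]
    refine MeasureTheory.Integrable.add ?_ ih
    have h2 : Measurable (fun ω => sd a x (some (A ω x l))) := by
      have h3 : Measurable (fun j : Fin m => sd a x (some j)) := measurable_of_finite _
      exact h3.comp (hA x l)
    refine MeasureTheory.Integrable.of_bound h2.aestronglyMeasurable
      (∑ j : Fin m, |sd a x (some j)|) (Filter.Eventually.of_forall fun ω => ?_)
    rw [Real.norm_eq_abs]
    exact Finset.single_le_sum (f := fun j : Fin m => |sd a x (some j)|)
      (fun j _ => abs_nonneg _) (Finset.mem_univ (A ω x l))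

end Pool.Agent.MP_a4c1f4_lc.LB
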