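import Pool.Agent.Lib.MP_a4c1f4_lc.LB.Spec

/-! # Main: integration over the random algorithm -/

set_option autoImplicit false

namespace Pool.Agent.MP_a4c1f4_lc.LB.MainM

open Finset Pool.Agent.MP_a4c1f4_lc.LB

theorem arm_pos {l k : ℕ} {x : ℝ} (hx : 0 < x) (i : Fin (l + k)) : 0 < arm l k x i := by
  unfold arm
  split_ifs
  · exact hx
  · exact one_pos

theorem arm_gB {l k : ℕ} (hk : 0 < k) (x : ℝ) (d : Fin (l + k)) (σ : Equiv.Perm (Fin l))
    (π : Equiv.Perm (Fin k)) : arm l k x (gB d σ π (l + k - 1)) = 1 := by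
  unfold gB arm
  rw [dif_neg (by omega), dif_pos (by omega), if_neg]
  rw [Fin.val_natAdd]
  omega

theorem arm_gT {l k : ℕ} (hk : 0 < k) (x : ℝ) (d : Fin (l + k)) (j : ℕ) (hj : j < l)
    (σ : Equiv.Perm (Fin l)) : arm l k x (gT d j σ (l + k - 1)) = x := by
  unfold gT arm
  rw [dif_neg (by omega), dif_neg (by omega), dif_pos (by omega), if_pos]
  rw [Fin.val_castAdd]
  exact Fin.isLt _

theorem uu_nonneg {l : ℕ} {x : ℝ} (hx : 0 < x) {t : ℕ} (ht : t < l) : 0 ≤ uu l x t := by
  unfold uu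
  have h : (t : ℝ) < l := by exact_mod_cast ht
  exact div_nonneg hx.le (by linarith)

theorem vv_nonneg {l : ℕ} {x : ℝ} (hx : 0 < x) {j : ℕ} (hj : j < l) : 0 ≤ vv l x j := by
  unfold vv
  refine mul_nonneg (uu_nonneg hx hj) (Finset.prod_nonneg fun i hi => ?_)
  have h := uu_nonneg hx (Finset.mem_Ico.1 hi).2
  linarith

theorem req_length {m : ℕ} (g : ℕ → Fin m) (t : ℕ) : (req g t).length = t + 1 := by
  induction t with
  | zero => rfl
  | succ t ih => rw [req, List.length_cons, ih]

end Pool.Agent.MP_a4c1f4_lc.LB.MainM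

namespace Pool.Agent.MP_a4c1f4_lc.LB

open Finset MainM MeasureTheory

theorem stmtMain (h1 : StmtPI) (h2 : StmtIntg) (h3 : StmtOpt) (h4 : StmtInj) (h5 : StmtAlg) :
    StmtMain := by
  intro l k hl hk x hx
  refine ⟨Option (Fin (l + k)), starMS (arm l k x) (arm_pos hx), some,
    Option.some_injective _, ?_⟩
  let _ := starMS (arm l k x) (arm_pos hx)
  rintro c ⟨Ω, mΩ, μ, hμ, A, hmeas, hval, hcomp⟩
  set a := arm l k x with ha
  let d : Fin (l + k) := ⟨0, by omega⟩
  let C : (ℕ → Fin (l + k)) → Ω → ℝ := fun g ω =>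
    ac a (req g (l + k - 1)) (assigned (A ω) (req g (l + k - 1)))
  have hI : ∀ g, Integrable (C g) μ := fun g => h2 (l + k) a Ω mΩ μ hμ A hmeas _
  have hc : ∀ g : ℕ → Fin (l + k), Set.InjOn g (Set.Iio (l + k)) →
      ∫ ω, C g ω ∂μ ≤ c * a (g (l + k - 1)) := by
    intro g hg
    obtain ⟨τ, hτ1, hτ2, hτ3⟩ := h3 (l + k) a g hg (by omega)
    have h := hcomp (req g (l + k - 1)) τ (by rw [req_length]; omega) hτ1 hτ2
    have e : cost (some : Fin (l + k) → Option (Fin (l + k))) (req g (l + k - 1)) τ =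
        ac a (req g (l + k - 1)) τ := rfl
    rw [e, hτ3] at h
    exact h
  have hvv : ∑ j ∈ range l, vv l x j = PP l x - 1 := (h5 l hl x (fun _ => 0)).1
  -- the integrals
  have hI1 : Integrable (fun ω => (∑ σ : Equiv.Perm (Fin l), ∑ π : Equiv.Perm (Fin k),
      C (gB d σ π) ω) / ((l.factorial : ℝ) * (k.factorial : ℝ))) μ :=
    (integrable_finsetSum _ fun σ _ => integrable_finsetSum _ fun π _ => hI _).div_const _
  have hI2 : ∀ j, Integrable (fun ω => vv l x j * ((∑ σ : Equiv.Perm (Fin l),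
      C (gT d j σ) ω) / (l.factorial : ℝ))) μ := fun j =>
    ((integrable_finsetSum _ fun σ _ => hI _).div_const _).const_mul _
  have hI3 : Integrable (fun ω => ∑ j ∈ range l, vv l x j * ((∑ σ : Equiv.Perm (Fin l),
      C (gT d j σ) ω) / (l.factorial : ℝ))) μ := integrable_finsetSum _ fun j _ => hI2 j
  have key : 2 * hr k - 1 + 2 * x * hr l + x * (2 * hr l - 1) * (PP l x - 1) ≤
      ∫ ω, ((∑ σ : Equiv.Perm (Fin l), ∑ π : Equiv.Perm (Fin k),
      C (gB d σ π) ω) / ((l.factorial : ℝ) * (k.factorial : ℝ)) +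
      ∑ j ∈ range l, vv l x j * ((∑ σ : Equiv.Perm (Fin l),
      C (gT d j σ) ω) / (l.factorial : ℝ))) ∂μ := by
    have h := integral_mono (μ := μ) (integrable_const
      (2 * hr k - 1 + 2 * x * hr l + x * (2 * hr l - 1) * (PP l x - 1))) (hI1.add hI3)
      (fun ω => h1 l k hl hk x hx d (A ω) (hval ω))
    rw [integral_const, probReal_univ, one_smul] at h
    exact h
  have e1 : ∫ ω, (∑ σ : Equiv.Perm (Fin l), ∑ π : Equiv.Perm (Fin k),
      C (gB d σ π) ω) / ((l.factorial : ℝ) * (k.factorial : ℝ)) ∂μ ≤ c := by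
    rw [integral_div, integral_finsetSum _ fun σ _ => integrable_finsetSum _ fun π _ => hI _]
    have h : ∀ σ : Equiv.Perm (Fin l), ∫ ω, ∑ π : Equiv.Perm (Fin k), C (gB d σ π) ω ∂μ ≤
        (k.factorial : ℝ) * c := by
      intro σ
      rw [integral_finsetSum _ fun π _ => hI _]
      calc ∑ π : Equiv.Perm (Fin k), ∫ ω, C (gB d σ π) ω ∂μ
          ≤ ∑ π : Equiv.Perm (Fin k), c := Finset.sum_le_sum fun π _ => by
            have := hc (gB d σ π) (h4.1 l k d σ π)
            rwa [ha, arm_gB hk, mul_one] at this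
        _ = (k.factorial : ℝ) * c := by
            rw [Finset.sum_const, Finset.card_univ, Fintype.card_perm, Fintype.card_fin,
              nsmul_eq_mul]
    have hl0 : (0 : ℝ) < l.factorial := by exact_mod_cast l.factorial_pos
    have hk0 : (0 : ℝ) < k.factorial := by exact_mod_cast k.factorial_pos
    rw [div_le_iff₀ (by positivity)]
    calc ∑ σ : Equiv.Perm (Fin l), ∫ ω, ∑ π : Equiv.Perm (Fin k), C (gB d σ π) ω ∂μ
        ≤ ∑ σ : Equiv.Perm (Fin l), (k.factorial : ℝ) * c := Finset.sum_le_sum fun σ _ => h σ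
      _ = c * ((l.factorial : ℝ) * (k.factorial : ℝ)) := by
          rw [Finset.sum_const, Finset.card_univ, Fintype.card_perm, Fintype.card_fin,
            nsmul_eq_mul]
          ring
  have e2 : ∫ ω, ∑ j ∈ range l, vv l x j * ((∑ σ : Equiv.Perm (Fin l),
      C (gT d j σ) ω) / (l.factorial : ℝ)) ∂μ ≤ c * (x * (PP l x - 1)) := by
    rw [integral_finsetSum _ fun j _ => hI2 j]
    calc ∑ j ∈ range l, ∫ ω, vv l x j * ((∑ σ : Equiv.Perm (Fin l),
          C (gT d j σ) ω) / (l.factorial : ℝ)) ∂μ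
        ≤ ∑ j ∈ range l, vv l x j * (c * x) := by
          refine Finset.sum_le_sum fun j hj => ?_
          rw [Finset.mem_range] at hj
          rw [integral_const_mul, integral_div, integral_finsetSum _ fun σ _ => hI _]
          refine mul_le_mul_of_nonneg_left ?_ (vv_nonneg hx hj)
          have hl0 : (0 : ℝ) < l.factorial := by exact_mod_cast l.factorial_pos
          rw [div_le_iff₀ hl0]
          calc ∑ σ : Equiv.Perm (Fin l), ∫ ω, C (gT d j σ) ω ∂μ
              ≤ ∑ σ : Equiv.Perm (Fin l), c * x := Finset.sum_le_sum fun σ _ => by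
                have := hc (gT d j σ) (h4.2 l k d j hj.le σ)
                rwa [ha, arm_gT hk x d j hj] at this
            _ = c * x * (l.factorial : ℝ) := by
                rw [Finset.sum_const, Finset.card_univ, Fintype.card_perm, Fintype.card_fin,
                  nsmul_eq_mul]
                ring
      _ = c * (x * (PP l x - 1)) := by
          rw [← Finset.sum_mul, hvv]
          ring
  rw [integral_add hI1 hI3] at key
  linarith

end Pool.Agent.MP_a4c1f4_lc.LB
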