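import Pool.Agent.Lib.MP_a4c1f4_lc.LB.Spec

set_option linter.all false

/-!
# Module `LB/NE`
-/

namespace Pool.Agent.MP_a4c1f4_lc.LB

open Finset

theorem stmtNE (h1 : StmtCard) : StmtNE := by
  classical
  intro m A hA g hg t ht
  have hinj : Set.InjOn g ((range m : Finset ℕ) : Set ℕ) := by
    intro a ha b hb hab
    exact hg (by simpa using ha) (by simpa using hb) hab
  have himg : (range m).image g = univ := by
    apply Finset.eq_univ_of_card
    rw [card_image_of_injOn hinj, card_range, Fintype.card_fin]
  have hcard := h1.1 m A hA g t ht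
  have hlt : ((range t).image g).card < (used A g t).card := by
    rw [hcard]
    exact Nat.lt_succ_of_le (card_image_le.trans (card_range t).le)
  obtain ⟨y, hy, hy'⟩ := exists_mem_notMem_of_card_lt_card hlt
  have hy2 : y ∈ (range m).image g := by rw [himg]; exact mem_univ y
  obtain ⟨i, hi, rfl⟩ := mem_image.1 hy2
  refine ⟨i, ?_, mem_range.1 hi, hy⟩
  by_contra h
  exact hy' (mem_image_of_mem g (mem_range.2 (by omega)))

end Pool.Agent.MP_a4c1f4_lc.LB
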