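import Pool.Agent.Lib.MP_a4c1f4_lc.LB.Spec

set_option linter.all false

/-!
Module `LB/Opt`: the optimal assignment of the requests.
-/

namespace Pool.Agent.MP_a4c1f4_lc.LB.OptM

open Finset
open Pool.Agent.MP_a4c1f4_lc.LB

/-- the optimal assignment (most recent request first) -/
def tau {m : ℕ} (g : ℕ → Fin m) : ℕ → List (Fin m)
  | 0 => [g (m - 1)]
  | t + 1 => g t :: tau g t

lemma tau_length {m : ℕ} (g : ℕ → Fin m) (t : ℕ) : (tau g t).length = (req g t).length := by
  induction t with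
  | zero => rfl
  | succ t ih => simp [tau, req, ih]

lemma ac_tau {m : ℕ} (a : Fin m → ℝ) (g : ℕ → Fin m) (t : ℕ) :
    ac a (req g t) (tau g t) = a (g (m - 1)) := by
  induction t with
  | zero => simp [ac, tau, req, sd]
  | succ t ih =>
    have h1 : ac a (req g (t + 1)) (tau g (t + 1))
        = sd a (some (g t)) (some (g t)) + ac a (req g t) (tau g t) := by
      simp [ac, tau, req]
    rw [h1, ih]
    simp [sd]

lemma mem_tau {m : ℕ} (g : ℕ → Fin m) (t : ℕ) (y : Fin m) (hy : y ∈ tau g t) :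
    y = g (m - 1) ∨ ∃ i < t, y = g i := by
  induction t with
  | zero =>
    left
    simpa [tau] using hy
  | succ t ih =>
    rw [tau, List.mem_cons] at hy
    rcases hy with hy | hy
    · exact Or.inr ⟨t, Nat.lt_succ_self t, hy⟩
    · rcases ih hy with h | ⟨i, hi, h⟩
      · exact Or.inl h
      · exact Or.inr ⟨i, Nat.lt_succ_of_lt hi, h⟩

lemma tau_nodup {m : ℕ} (g : ℕ → Fin m) (hg : Set.InjOn g (Set.Iio m)) (t : ℕ)
    (ht : t ≤ m - 1) : (tau g t).Nodup := by
  induction t with
  | zero => simp [tau]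
  | succ t ih =>
    rw [tau, List.nodup_cons]
    refine ⟨?_, ih (by omega)⟩
    intro hmem
    rcases mem_tau g t _ hmem with h | ⟨i, hi, h⟩
    · have := hg (Set.mem_Iio.2 (by omega)) (Set.mem_Iio.2 (by omega)) h
      omega
    · have := hg (Set.mem_Iio.2 (by omega)) (Set.mem_Iio.2 (by omega)) h
      omega

end Pool.Agent.MP_a4c1f4_lc.LB.OptM

namespace Pool.Agent.MP_a4c1f4_lc.LB

/-- the optimal assignment -/
theorem stmtOpt : StmtOpt := by
  intro m a g hg hm
  exact ⟨OptM.tau g (m - 1), OptM.tau_length g _, OptM.tau_nodup g hg _ le_rfl, OptM.ac_tau a g _⟩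

end Pool.Agent.MP_a4c1f4_lc.LB
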