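import Pool.Agent.Lib.MP_a4c1f4_lc.LB.Spec

set_option linter.all false

/-!
Module `LB/PI`: the lower bound for the mixture of the orders `B` and `T j`.
-/

namespace Pool.Agent.MP_a4c1f4_lc.LB.PIM

open Finset
open Pool.Agent.MP_a4c1f4_lc.LB

lemma arm_nonneg (l k : ℕ) (x : ℝ) (hx : 0 < x) (i : Fin (l + k)) : 0 ≤ arm l k x i := by
  unfold arm
  split_ifs
  · exact hx.le
  · norm_num

lemma arm_gB (l k : ℕ) (hl : 0 < l) (hk : 0 < k) (x : ℝ) (d : Fin (l + k))
    (σ : Equiv.Perm (Fin l)) (π : Equiv.Perm (Fin k)) :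
    arm l k x (gB d σ π (l + k - 1)) = 1 := by
  have h1 : ¬ (l + k - 1 < l) := by omega
  have h2 : l + k - 1 - l < k := by omega
  unfold arm gB
  rw [dif_neg h1, dif_pos h2, if_neg]
  simp

lemma arm_gT (l k : ℕ) (hl : 0 < l) (hk : 0 < k) (x : ℝ) (d : Fin (l + k)) (j : ℕ) (hj : j < l)
    (σ : Equiv.Perm (Fin l)) :
    arm l k x (gT d j σ (l + k - 1)) = x := by
  have h1 : ¬ (l + k - 1 < l ∧ l + k - 1 < j) := by omega
  have h2 : ¬ (l + k - 1 - j < k) := by omega
  have h3 : l + k - 1 - k < l := by omega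
  unfold arm gT
  rw [dif_neg h1, dif_neg h2, dif_pos h3, if_pos]
  simp

lemma uu_nonneg (l : ℕ) (x : ℝ) (hx : 0 < x) (t : ℕ) (ht : t < l) : 0 ≤ uu l x t := by
  unfold uu
  have h1 : (t : ℝ) < l := by exact_mod_cast ht
  apply div_nonneg hx.le
  linarith

lemma vv_nonneg (l : ℕ) (x : ℝ) (hx : 0 < x) (j : ℕ) (hj : j < l) : 0 ≤ vv l x j := by
  unfold vv
  apply mul_nonneg (uu_nonneg l x hx j hj)
  apply Finset.prod_nonneg
  intro i hi
  have h1 := uu_nonneg l x hx i (Finset.mem_Ico.1 hi).2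
  linarith

lemma boundB (h1 : StmtPot) (h2 : StmtEB) (h5 : StmtInj) (l k : ℕ) (hl : 0 < l) (hk : 0 < k)
    (x : ℝ) (hx : 0 < x) (d : Fin (l + k)) (A : Rl (l + k)) (hA : Valid A) :
    ∑ t ∈ range l, 2 * uu l x t * (1 - qq d A t) + 2 * hr k - 1 ≤
      (∑ σ : Equiv.Perm (Fin l), ∑ π : Equiv.Perm (Fin k),
        ac (arm l k x) (req (gB d σ π) (l + k - 1))
          (assigned A (req (gB d σ π) (l + k - 1)))) /
        ((l.factorial : ℝ) * (k.factorial : ℝ)) := by
  have hpos : (0 : ℝ) < (l.factorial : ℝ) * (k.factorial : ℝ) := by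
    have a1 : (0 : ℝ) < (l.factorial : ℝ) := by exact_mod_cast l.factorial_pos
    have a2 : (0 : ℝ) < (k.factorial : ℝ) := by exact_mod_cast k.factorial_pos
    exact mul_pos a1 a2
  have hE := h2 l k hl hk x hx d A hA
  have hsum : (∑ σ : Equiv.Perm (Fin l), ∑ π : Equiv.Perm (Fin k), ∑ t ∈ range (l + k),
        2 * arm l k x (gB d σ π t) * hit A (gB d σ π) t)
        - (l.factorial : ℝ) * (k.factorial : ℝ) ≤
      ∑ σ : Equiv.Perm (Fin l), ∑ π : Equiv.Perm (Fin k),
        ac (arm l k x) (req (gB d σ π) (l + k - 1))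
          (assigned A (req (gB d σ π) (l + k - 1))) := by
    have hc : (l.factorial : ℝ) * (k.factorial : ℝ)
        = ∑ σ : Equiv.Perm (Fin l), ∑ π : Equiv.Perm (Fin k), (1 : ℝ) := by
      simp [Fintype.card_perm]
    rw [hc, ← Finset.sum_sub_distrib]
    apply Finset.sum_le_sum
    intro σ _
    rw [← Finset.sum_sub_distrib]
    apply Finset.sum_le_sum
    intro π _
    have h3 := h1 (l + k) (arm l k x) (arm_nonneg l k x hx) A hA (gB d σ π) (h5.1 l k d σ π)
      (by omega)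
    rw [arm_gB l k hl hk] at h3
    exact h3
  have hdiv := div_le_div_of_nonneg_right hsum hpos.le
  rw [sub_div, div_self hpos.ne'] at hdiv
  linarith

lemma boundT (h1 : StmtPot) (h2 : StmtET) (h5 : StmtInj) (l k : ℕ) (hl : 0 < l) (hk : 0 < k)
    (x : ℝ) (hx : 0 < x) (d : Fin (l + k)) (A : Rl (l + k)) (hA : Valid A) (j : ℕ) (hj : j < l) :
    ∑ t ∈ range j, 2 * uu l x t * (1 - qq d A t) + 2 * qq d A j + 2 * x * hr (l - j) - x ≤
      (∑ σ : Equiv.Perm (Fin l),
        ac (arm l k x) (req (gT d j σ) (l + k - 1))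
          (assigned A (req (gT d j σ) (l + k - 1)))) / (l.factorial : ℝ) := by
  have hpos : (0 : ℝ) < (l.factorial : ℝ) := by exact_mod_cast l.factorial_pos
  have hE := h2 l k hl hk x hx d A hA j hj
  have hsum : (∑ σ : Equiv.Perm (Fin l), ∑ t ∈ range (l + k),
        2 * arm l k x (gT d j σ t) * hit A (gT d j σ) t) - (l.factorial : ℝ) * x ≤
      ∑ σ : Equiv.Perm (Fin l),
        ac (arm l k x) (req (gT d j σ) (l + k - 1))
          (assigned A (req (gT d j σ) (l + k - 1))) := by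
    have hc : (l.factorial : ℝ) * x = ∑ σ : Equiv.Perm (Fin l), x := by
      simp [Fintype.card_perm]
    rw [hc, ← Finset.sum_sub_distrib]
    apply Finset.sum_le_sum
    intro σ _
    have h3 := h1 (l + k) (arm l k x) (arm_nonneg l k x hx) A hA (gT d j σ)
      (h5.2 l k d j hj.le σ) (by omega)
    rw [arm_gT l k hl hk x d j hj] at h3
    exact h3
  have hdiv := div_le_div_of_nonneg_right hsum hpos.le
  rw [sub_div, mul_div_cancel_left₀ _ hpos.ne'] at hdiv
  linarith

end Pool.Agent.MP_a4c1f4_lc.LB.PIM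

namespace Pool.Agent.MP_a4c1f4_lc.LB

open Finset

/-- the lower bound for the mixture of the orders -/
theorem stmtPI (h1 : StmtPot) (h2 : StmtEB) (h3 : StmtET) (h4 : StmtAlg) (h5 : StmtInj) :
    StmtPI := by
  intro l k hl hk x hx d A hA
  have hB := PIM.boundB h1 h2 h5 l k hl hk x hx d A hA
  have hT : ∑ j ∈ range l, vv l x j *
        (∑ t ∈ range j, 2 * uu l x t * (1 - qq d A t) + 2 * qq d A j + 2 * x * hr (l - j) - x) ≤
      ∑ j ∈ range l, vv l x j * ((∑ σ : Equiv.Perm (Fin l),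
        ac (arm l k x) (req (gT d j σ) (l + k - 1))
          (assigned A (req (gT d j σ) (l + k - 1)))) / (l.factorial : ℝ)) := by
    apply Finset.sum_le_sum
    intro j hj
    have hj' := Finset.mem_range.1 hj
    exact mul_le_mul_of_nonneg_left (PIM.boundT h1 h3 h5 l k hl hk x hx d A hA j hj')
      (PIM.vv_nonneg l x hx j hj')
  have hAlg := (h4 l hl x (qq d A)).2
  linarith

end Pool.Agent.MP_a4c1f4_lc.LB
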