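import Pool.Agent.Lib.MP_a4c1f4_lc.LB.Spec

set_option linter.all false

/-!
The potential argument for an arbitrary online rule.
-/

namespace Pool.Agent.MP_a4c1f4_lc.LB

open Finset

namespace PotM

variable {m : ℕ}

/-- indicator function -/
noncomputable def ind (U : Finset (Fin m)) (i : Fin m) : ℝ := if i ∈ U then 1 else 0

theorem ind_sq (U : Finset (Fin m)) (i : Fin m) : ind U i ^ 2 = ind U i := by
  unfold ind
  split_ifs <;> norm_num

theorem ind_nonneg (U : Finset (Fin m)) (i : Fin m) : 0 ≤ ind U i := by
  unfold ind
  split_ifs <;> norm_num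

theorem ind_insert_self (U : Finset (Fin m)) (i : Fin m) : ind (insert i U) i = 1 := by
  unfold ind
  rw [if_pos (Finset.mem_insert_self _ _)]

theorem ind_insert_ne (U : Finset (Fin m)) {i s : Fin m} (h : i ≠ s) :
    ind (insert s U) i = ind U i := by
  unfold ind
  simp only [Finset.mem_insert, h, false_or]

theorem ind_notMem {U : Finset (Fin m)} {i : Fin m} (h : i ∉ U) : ind U i = 0 := if_neg h

/-- the potential -/
noncomputable def Phi (a : Fin m → ℝ) (U K : Finset (Fin m)) : ℝ :=
  ∑ i, a i * (ind U i - ind K i) ^ 2

theorem Phi_step (a : Fin m → ℝ) {U K : Finset (Fin m)} {s r : Fin m} (hs : s ∉ U) (hr : r ∉ K)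
    (hsr : s ≠ r) : Phi a (insert s U) (insert r K) =
      Phi a U K + a s * (1 - 2 * ind K s) + a r * (1 - 2 * ind U r) := by
  have e1 : a s * (1 - 2 * ind K s) = ∑ i, if i = s then a i * (1 - 2 * ind K i) else 0 := by
    rw [Finset.sum_ite_eq' Finset.univ s, if_pos (Finset.mem_univ _)]
  have e2 : a r * (1 - 2 * ind U r) = ∑ i, if i = r then a i * (1 - 2 * ind U i) else 0 := by
    rw [Finset.sum_ite_eq' Finset.univ r, if_pos (Finset.mem_univ _)]
  rw [e1, e2]
  unfold Phi
  rw [← Finset.sum_add_distrib, ← Finset.sum_add_distrib]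
  refine Finset.sum_congr rfl fun i _ => ?_
  by_cases his : i = s
  · subst his
    rw [if_pos rfl, if_neg hsr, ind_insert_self, ind_insert_ne _ hsr, ind_notMem hs]
    linear_combination a i * (0 : ℝ) * ind_sq K i
  · by_cases hir : i = r
    · subst hir
      rw [if_neg his, if_pos rfl, ind_insert_self, ind_insert_ne _ his, ind_notMem hr]
      ring
    · rw [if_neg his, if_neg hir, ind_insert_ne _ his, ind_insert_ne _ hir]
      ring

theorem Phi_same (a : Fin m → ℝ) {U K : Finset (Fin m)} {r : Fin m} (hs : r ∉ U) (hr : r ∉ K) :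
    Phi a (insert r U) (insert r K) = Phi a U K := by
  unfold Phi
  refine Finset.sum_congr rfl fun i _ => ?_
  by_cases hir : i = r
  · subst hir
    rw [ind_insert_self, ind_insert_self, ind_notMem hs, ind_notMem hr]
    ring
  · rw [ind_insert_ne _ hir, ind_insert_ne _ hir]

theorem length_req (g : ℕ → Fin m) (t : ℕ) : (req g t).length = t + 1 := by
  induction t with
  | zero => rfl
  | succ t ih =>
    change (some (g t) :: req g t).length = _
    rw [List.length_cons, ih]

theorem used_succ (A : Rl m) (g : ℕ → Fin m) (t : ℕ) :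
    used A g (t + 1) = insert (A (some (g t)) (req g t)) (used A g t) := by
  change (A (some (g t)) (req g t) :: assigned A (req g t)).toFinset = _
  rw [List.toFinset_cons]
  rfl

theorem site_notMem (A : Rl m) (hA : Valid A) (g : ℕ → Fin m) (t : ℕ) (ht : t + 1 < m) :
    A (some (g t)) (req g t) ∉ used A g t := by
  have h1 := hA (req g (t + 1)) (by rw [length_req]; omega)
  change (A (some (g t)) (req g t) :: assigned A (req g t)).Nodup at h1
  rw [List.nodup_cons] at h1
  unfold used
  rw [List.mem_toFinset]
  exact h1.1

theorem ac_succ (a : Fin m → ℝ) (A : Rl m) (g : ℕ → Fin m) (t : ℕ) :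
    ac a (req g (t + 1)) (assigned A (req g (t + 1))) =
      sd a (some (g t)) (some (A (some (g t)) (req g t))) +
        ac a (req g t) (assigned A (req g t)) := by
  change (List.zipWith (fun x j => sd a x (some j)) (some (g t) :: req g t)
    (A (some (g t)) (req g t) :: assigned A (req g t))).sum = _
  rw [List.zipWith_cons_cons, List.sum_cons]
  rfl

theorem key (a : Fin m → ℝ) (ha : ∀ i, 0 ≤ a i) (A : Rl m) (hA : Valid A) (g : ℕ → Fin m)
    (hg : Set.InjOn g (Set.Iio m)) (t : ℕ) (ht : t < m) :
    ∑ i ∈ range t, 2 * a (g i) * hit A g i + Phi a (used A g t) ((range t).image g) ≤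
      ac a (req g t) (assigned A (req g t)) := by
  induction t with
  | zero =>
    rw [Finset.sum_range_zero, Finset.range_zero, Finset.image_empty, zero_add]
    have h1 : used A g 0 = {A none []} := rfl
    have h2 : ac a (req g 0) (assigned A (req g 0)) = a (A none []) := by
      change (List.zipWith (fun x j => sd a x (some j)) [none] [A none []]).sum = _
      simp [sd]
    rw [h1, h2]
    unfold Phi
    rw [Finset.sum_eq_single (A none [])]
    · unfold ind
      simp
    · intro i _ hi
      unfold ind
      simp [hi]
    · intro h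
      exact absurd (Finset.mem_univ _) h
  | succ t ih =>
    have ih := ih (by omega)
    rw [Finset.sum_range_succ, ac_succ, used_succ, Finset.range_add_one, Finset.image_insert]
    set r := g t with hr
    set s := A (some r) (req g t) with hs
    have hsU : s ∉ used A g t := site_notMem A hA g t ht
    have hrK : r ∉ (range t).image g := by
      intro h
      obtain ⟨i, hi, hgi⟩ := Finset.mem_image.1 h
      rw [Finset.mem_range] at hi
      have := hg (Set.mem_Iio.2 (by omega)) (Set.mem_Iio.2 (by omega)) hgi
      omega
    have hhit : hit A g t = ind (used A g t) r := rfl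
    by_cases hsr : s = r
    · rw [hsr] at hsU ⊢
      rw [Phi_same a hsU hrK, hhit, ind_notMem hsU]
      have h3 : sd a (some r) (some r) = 0 := by simp [sd]
      rw [h3]
      linarith
    · rw [Phi_step a hsU hrK hsr, hhit]
      have h3 : sd a (some r) (some s) = a r + a s := by
        simp only [sd]
        rw [if_neg (fun h => hsr h.symm)]
      rw [h3]
      have h4 := mul_nonneg (ha s) (ind_nonneg ((range t).image g) s)
      nlinarith [ih, h4]

end PotM

theorem stmtPot (h1 : StmtCard) : StmtPot := by
  intro m a ha A hA g hg hm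
  obtain ⟨n, rfl⟩ : ∃ n, m = n + 1 := ⟨m - 1, by omega⟩
  rw [Nat.add_sub_cancel, Finset.sum_range_succ]
  have h2 := PotM.key a ha A hA g hg n (by omega)
  have hK : g n ∉ (range n).image g := by
    intro h
    obtain ⟨i, hi, hgi⟩ := Finset.mem_image.1 h
    rw [Finset.mem_range] at hi
    have := hg (Set.mem_Iio.2 (by omega)) (Set.mem_Iio.2 (by omega)) hgi
    omega
  have h3 : 2 * a (g n) * hit A g n - a (g n) ≤
      PotM.Phi a (used A g n) ((range n).image g) := by
    have h4 : a (g n) * (PotM.ind (used A g n) (g n) -
        PotM.ind ((range n).image g) (g n)) ^ 2 ≤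
          PotM.Phi a (used A g n) ((range n).image g) := by
      unfold PotM.Phi
      exact Finset.single_le_sum (f := fun i => a i * (PotM.ind (used A g n) i -
        PotM.ind ((range n).image g) i) ^ 2)
        (fun i _ => mul_nonneg (ha i) (sq_nonneg _)) (Finset.mem_univ (g n))
    rw [PotM.ind_notMem hK] at h4
    have h5 : hit A g n = PotM.ind (used A g n) (g n) := rfl
    rw [h5]
    have h6 := ha (g n)
    unfold PotM.ind at h4 ⊢
    split_ifs at h4 ⊢ with h7
    · nlinarith
    · nlinarith
  linarith

end Pool.Agent.MP_a4c1f4_lc.LB
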