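import Pool.Agent.Lib.MP_a4c1f4_lc.LB.Defs

set_option linter.all false

/-!
Lower bound for randomized online assignment (stars with two arm lengths): statements of all
the modules. Every module imports only this file; used statements are hypotheses.

THE PROOF IN ONE PARAGRAPH. Star with `l` short arms of length `x` and `k` long arms of
length `1`, the `m = l + k` leaves are the sites. The first request is the centre, then the
leaves are requested one by one in an order `g 0, ..., g (m-2)`, so the optimum is at most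
`a (g (m-1))`. A request at a leaf which is already used is a hit. `StmtPot`: the cost of
every valid rule is at least the sum of `2 a` over the hits minus `a (g (m-1))` (the index
`m-1` is always a hit). For random orders the probability of a hit is at least
`1 / (number of alive arms of the kind requested)` times the probability that no arm of the
other kind is used (`StmtEB`, `StmtET`). Mixing order `B` (weight 1) and the orders `T j`
(weights `vv j`) the unknown probabilities `qq` cancel (`StmtAlg`).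
-/

namespace Pool.Agent.MP_a4c1f4_lc.LB

open Finset

/-- Deterministic online rules on the star. -/
abbrev Rl (m : ℕ) : Type := Option (Fin m) → List (Option (Fin m)) → Fin m

/-- Module `LB/Card`.
(1) `req g t` has length `t + 1`, so does `assigned A (req g t)` (induction), it has no
duplicates by `Valid` (`t + 1 ≤ m`), so `used` has `t + 1` elements (`List.toFinset_card_of_nodup`).
(2) `used A g (t+1) = insert _ (used A g t)`. Induction on `n`.
(3) By induction `req g t = req g' t`. -/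
def StmtCard : Prop :=
  (∀ (m : ℕ) (A : Rl m), Valid A → ∀ (g : ℕ → Fin m) (t : ℕ), t < m →
    (used A g t).card = t + 1) ∧
  (∀ (m : ℕ) (A : Rl m) (g : ℕ → Fin m) (t n : ℕ), used A g t ⊆ used A g (t + n)) ∧
  (∀ (m : ℕ) (A : Rl m) (g g' : ℕ → Fin m) (t : ℕ), (∀ i < t, g i = g' i) →
    used A g t = used A g' t)

/-- Module `LB/NE`. Uses `StmtCard`.
`g` restricted to `range m` is injective into `Fin m`, hence bijective
(`Finset.card_image_of_injOn`, `Finset.eq_univ_of_card` ...). `used A g t` has `t + 1`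
elements, but `(range t).image g` has only `t`, so some `y ∈ used A g t` is not in
`(range t).image g`; write `y = g i` with `i < m`, then `t ≤ i`. -/
def StmtNE : Prop :=
  ∀ (m : ℕ) (A : Rl m), Valid A → ∀ g : ℕ → Fin m, Set.InjOn g (Set.Iio m) →
    ∀ t < m, ∃ i, t ≤ i ∧ i < m ∧ g i ∈ used A g t

/-- Module `LB/Pot`. Uses `StmtCard` (first part).
Write `U t = used A g t`, `K t = (range t).image g`. By induction on `t < m`:
`∑ i ∈ range t, 2 * a (g i) * hit A g i + ∑ i ∈ U t \ K t, a i + ∑ i ∈ K t \ U t, a i ≤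
 ac a (req g t) (assigned A (req g t))`.
`t = 0`: `U 0 = {A none []}`, `K 0 = ∅`, both sides are `a (A none [])`.
Step: the new request is `r = g t` (not in `K t`, `g` is injective), the new site is
`s = A (some r) (req g t)`, not in `U t` (the list `assigned A (req g (t+1))` has no
duplicates). The cost of the step is `0` if `s = r` and `a r + a s` otherwise.
`K (t+1) = insert r (K t)`, `U (t+1) = insert s (U t)`.
* `s = r` (then `r ∉ U t`, no hit): both differences are unchanged.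
* `s ≠ r`, `r ∉ U t` (no hit): `K \ U` gains `r` and loses `s` if `s ∈ K t`; `U \ K` gains
  `s` if `s ∉ K t`. The two sums grow by `a r + a s` or `a r - a s`.
* `s ≠ r`, `r ∈ U t` (hit, the hit sum grows by `2 a r`): `U \ K` loses `r` and gains `s` if
  `s ∉ K t`; `K \ U` loses `s` if `s ∈ K t`. The two sums grow by `- a r + a s` or
  `- a r - a s`.
At `t = m - 1`: `U` has `m` elements, so `U = univ`, `hit A g (m-1) = 1`, `K` misses exactly
`g (m-1)`, so `U \ K = {g (m-1)}` and `K \ U = ∅`. So the left side is the sum over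
`range (m-1)` plus `a (g (m-1))`, which is the sum over `range m` minus `a (g (m-1))`. -/
def StmtPot : Prop :=
  ∀ (m : ℕ) (a : Fin m → ℝ), (∀ i, 0 ≤ a i) → ∀ A : Rl m, Valid A → ∀ g : ℕ → Fin m,
    Set.InjOn g (Set.Iio m) → 0 < m →
    ∑ t ∈ range m, 2 * a (g t) * hit A g t - a (g (m - 1)) ≤
      ac a (req g (m - 1)) (assigned A (req g (m - 1)))

open Classical in
/-- Module `LB/Sym`.
For `i ≥ t` the map `σ ↦ σ * swap ⟨t, ht⟩ i` is a bijection of the permutations which does
not change the values at the positions `< t`, so `F` is unchanged and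
`∑ σ, [σ i ∈ F σ] = ∑ σ, [σ t ∈ F σ]` (`Equiv.sum_comp` with `Equiv.mulRight`). Exchange the
two sums on the right side; there are `l - t` indices `i ≥ t`. -/
def StmtSym : Prop :=
  ∀ (l t : ℕ) (ht : t < l) (F : Equiv.Perm (Fin l) → Finset (Fin l)),
    (∀ σ σ' : Equiv.Perm (Fin l), (∀ i : Fin l, (i : ℕ) < t → σ i = σ' i) → F σ = F σ') →
    ((l : ℝ) - t) * ∑ σ : Equiv.Perm (Fin l), (if σ ⟨t, ht⟩ ∈ F σ then (1 : ℝ) else 0) =
      ∑ σ : Equiv.Perm (Fin l), ∑ i : Fin l,
        (if t ≤ (i : ℕ) ∧ σ i ∈ F σ then (1 : ℝ) else 0)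

/-- Module `LB/Opt`.
For every `t < m` the list `τ t := (the list g (t-1), ..., g 0) ++ [g (m-1)]` (recursively
`τ 0 = [g (m-1)]`, `τ (t+1) = g t :: τ t`) has length `t + 1` and
`ac a (req g t) (τ t) = a (g (m-1))` (every leaf is served by itself at cost `0`, the centre
by `g (m-1)`). For `t ≤ m - 1` it has no duplicates since `g` is injective on `Iio m`. -/
def StmtOpt : Prop :=
  ∀ (m : ℕ) (a : Fin m → ℝ) (g : ℕ → Fin m), Set.InjOn g (Set.Iio m) → 0 < m →
    ∃ τ : List (Fin m), τ.length = (req g (m - 1)).length ∧ τ.Nodup ∧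
      ac a (req g (m - 1)) τ = a (g (m - 1))

/-- Module `LB/Inj`. Both orders are injective on `Iio (l + k)`: unfold, split the cases
(values below `l` are short arms, values `≥ l` are long arms), use the injectivity of `σ`,
`π`, `Fin.castAdd`, `Fin.natAdd` and `omega`. For `gT` with `t < l + k`, `j ≤ l`: `t < j`
short arm `σ t`; `j ≤ t < j + k` long arm `t - j`; `j + k ≤ t` short arm `σ (t - k)` with
`t - k ≥ j`. -/
def StmtInj : Prop :=
  (∀ (l k : ℕ) (d : Fin (l + k)) (σ : Equiv.Perm (Fin l)) (π : Equiv.Perm (Fin k)),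
    Set.InjOn (gB d σ π) (Set.Iio (l + k))) ∧
  (∀ (l k : ℕ) (d : Fin (l + k)) (j : ℕ), j ≤ l → ∀ σ : Equiv.Perm (Fin l),
    Set.InjOn (gT d j σ : ℕ → Fin (l + k)) (Set.Iio (l + k)))

/-- Module `LB/EB`. Uses `StmtCard`, `StmtNE`, `StmtSym`, `StmtInj`.
Split `range (l + k)` into `t < l` and `t = l + s`, `s < k`.
FIRST PART, `t < l`: `arm l k x (gB d σ π t) = x`, and `used A (gB d σ π) t` depends only on
`σ 0, ..., σ (t-1)` (third part of `StmtCard`), in particular it equals
`used A (gB d σ 1) t =: U σ`. With `F σ = univ.filter (fun i => Fin.castAdd k i ∈ U σ)` and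
`StmtSym`: `(l - t) * ∑ σ, hit = ∑ σ, #{i ≥ t : σ i ∈ F σ}`. By `StmtNE` (for `gB d σ 1`)
there is `i ≥ t`, `i < l + k` with `gB d σ 1 i ∈ U σ`; if no long arm is in `U σ` then
`i < l`, so the number is `≥ 1`. Hence the number is `≥ 1 - [a long arm is in U σ]` and
`∑ σ, hit ≥ l! * (1 - qq d A t) / (l - t)`, for every `π`.
SECOND PART, `t = l + s`: `arm = 1`. Fix `σ`. `used A (gB d σ π) (l + s)` depends only on
`π 0, ..., π (s-1)`. Apply `StmtSym` to `π` with `F π = {i : Fin.natAdd l i ∈ used ..}`; by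
`StmtNE` some index `≥ l + s` is used, it is a long arm `π i` with `i ≥ s`, so the number is
`≥ 1`: `∑ π, hit ≥ k! / (k - s)`. Sum over `s`: `∑ s ∈ range k, 2 / (k - s) = 2 * hr k`
(reflect the sum). -/
def StmtEB : Prop :=
  ∀ (l k : ℕ), 0 < l → 0 < k → ∀ x : ℝ, 0 < x → ∀ (d : Fin (l + k)) (A : Rl (l + k)), Valid A →
    ∑ t ∈ range l, 2 * uu l x t * (1 - qq d A t) + 2 * hr k ≤
      (∑ σ : Equiv.Perm (Fin l), ∑ π : Equiv.Perm (Fin k), ∑ t ∈ range (l + k),
        2 * arm l k x (gB d σ π t) * hit A (gB d σ π) t) /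
      ((l.factorial : ℝ) * (k.factorial : ℝ))

/-- Module `LB/ET`. Uses `StmtCard`, `StmtNE`, `StmtSym`, `StmtInj`.
Here `j < l`. Split `range (l + k)` into `t < j`, `t = j + s` (`s < k`), `t = k + i`
(`j ≤ i < l`).
`t < j`: as in the first part of `LB/EB` (`gT d j σ` and `gB d σ 1` agree at the indices
`< j`, so `used A (gT d j σ) t = used A (gB d σ 1) t`; for `StmtNE` use `gB d σ 1`).
`t = j + s`: `arm = 1`, and for every `σ`
`∑ s ∈ range k, hit A (gT d j σ) (j + s) ≥ [a long arm is in used A (gT d j σ) j]`, because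
if the long arm `s0` is in `used .. j`, then it is in `used .. (j + s0)` (second part of
`StmtCard`) and `gT d j σ (j + s0)` is this arm. And `used A (gT d j σ) j =
used A (gB d σ 1) j`. So this part gives `≥ 2 * qq d A j`.
`t = k + i`, `j ≤ i < l`: `arm = x`, `used A (gT d j σ) (k + i)` depends only on
`σ 0, ..., σ (i-1)`; by `StmtNE` some index `≥ k + i` is used, it is the short arm `σ i'`
with `i' ≥ i`, so `StmtSym` gives `∑ σ, hit ≥ l! / (l - i)`. Sum:
`∑ i ∈ Ico j l, 2 * x / (l - i) = 2 * x * hr (l - j)`. -/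
def StmtET : Prop :=
  ∀ (l k : ℕ), 0 < l → 0 < k → ∀ x : ℝ, 0 < x → ∀ (d : Fin (l + k)) (A : Rl (l + k)), Valid A →
    ∀ j < l,
    ∑ t ∈ range j, 2 * uu l x t * (1 - qq d A t) + 2 * qq d A j + 2 * x * hr (l - j) ≤
      (∑ σ : Equiv.Perm (Fin l), ∑ t ∈ range (l + k),
        2 * arm l k x (gT d j σ t) * hit A (gT d j σ) t) / (l.factorial : ℝ)

/-- Module `LB/Alg`. Pure algebra.
Let `V i = ∏ i' ∈ Ico i l, (1 + uu l x i')`, so `V l = 1`, `V i = V (i+1) * (1 + uu i)`,
`vv j = uu j * V (j+1) = V j - V (j+1)`; telescoping gives `∑ j ∈ Ico t l, vv j = V t - 1`,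
in particular the first part. Further `∑ t ∈ range l, uu t = x * hr l` and
`x * hr (l - j) = ∑ t ∈ Ico j l, uu t` (reflection). So the bracket of `vv j` is
`2 x hr l - x + 2 (q j - ∑ t ∈ range j, uu t * q t)`, and exchanging the sums
`∑ j, vv j * (q j - ∑ t<j, uu t * q t) = ∑ t, q t * (vv t - uu t * ∑ j>t, vv j) =
 ∑ t, q t * (vv t - uu t * (V (t+1) - 1)) = ∑ t, q t * uu t`. -/
def StmtAlg : Prop :=
  ∀ (l : ℕ), 0 < l → ∀ (x : ℝ) (q : ℕ → ℝ),
    (∑ j ∈ range l, vv l x j = PP l x - 1) ∧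
    ((∑ t ∈ range l, 2 * uu l x t * (1 - q t)) +
      ∑ j ∈ range l, vv l x j *
        (∑ t ∈ range j, 2 * uu l x t * (1 - q t) + 2 * q j + 2 * x * hr (l - j) - x) =
      2 * x * hr l + x * (2 * hr l - 1) * (PP l x - 1))

/-- Module `LB/PI`. Uses `StmtPot`, `StmtEB`, `StmtET`, `StmtAlg`, `StmtInj`.
`gB d σ π (l + k - 1)` is a long arm (`a = 1`), `gT d j σ (l + k - 1)` is a short arm
(`a = x`) for `j < l`. Sum `StmtPot` over `σ, π` (resp. `σ`), divide, use `StmtEB` and
`StmtET`, multiply by the weights `vv ≥ 0`, use `StmtAlg` with `q = qq d A`. -/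
def StmtPI : Prop :=
  ∀ (l k : ℕ), 0 < l → 0 < k → ∀ x : ℝ, 0 < x → ∀ (d : Fin (l + k)) (A : Rl (l + k)), Valid A →
    2 * hr k - 1 + 2 * x * hr l + x * (2 * hr l - 1) * (PP l x - 1) ≤
      (∑ σ : Equiv.Perm (Fin l), ∑ π : Equiv.Perm (Fin k),
        ac (arm l k x) (req (gB d σ π) (l + k - 1))
          (assigned A (req (gB d σ π) (l + k - 1)))) /
        ((l.factorial : ℝ) * (k.factorial : ℝ)) +
      ∑ j ∈ range l, vv l x j * ((∑ σ : Equiv.Perm (Fin l),
        ac (arm l k x) (req (gT d j σ) (l + k - 1))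
          (assigned A (req (gT d j σ) (l + k - 1)))) / (l.factorial : ℝ))

/-- Module `LB/Intg`. The cost is a finite sum of functions of `ω` which factor through the
measurable maps `ω ↦ A ω x l` into the finite discrete space `Fin m` (induction on `l`), so
it is measurable and bounded, hence integrable for a probability measure. -/
def StmtIntg : Prop :=
  ∀ (m : ℕ) (a : Fin m → ℝ) (Ω : Type) (_ : MeasurableSpace Ω) (μ : MeasureTheory.Measure Ω)
    (_ : MeasureTheory.IsProbabilityMeasure μ) (A : Ω → Rl m),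
    (∀ x l, Measurable (fun ω => A ω x l)) → ∀ l : List (Option (Fin m)),
      MeasureTheory.Integrable (fun ω => ac a l (assigned (A ω) l)) μ

/-- Module `LB/Main`. Uses `StmtPI`, `StmtIntg`, `StmtOpt`, `StmtInj`, `StmtAlg`.
Take `N = Option (Fin (l + k))` with the metric `starMS (arm l k x) _`, `s = some`. Then
`cost some l τ = ac (arm l k x) l τ` by `rfl`. Integrate `StmtPI` over `ω` (finite sums of
integrable functions); for every order `g` the integral of the cost is at most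
`c * arm (g (l+k-1))` by `Competitive` applied to the assignment of `StmtOpt`
(`req g (l+k-1)` has length `l + k`), that is `c` for `gB` and `c * x` for `gT d j σ`,
`j < l`. There are `l! * k!` resp. `l!` orders, `vv ≥ 0`, and `∑ vv = PP - 1`. -/
def StmtMain : Prop :=
  ∀ (l k : ℕ), 0 < l → 0 < k → ∀ x : ℝ, 0 < x →
    ∃ (N : Type) (_ : MetricSpace N) (s : Fin (l + k) → N), Function.Injective s ∧
      ∀ c : ℝ, Competitive s c →
        2 * hr k - 1 + 2 * x * hr l + x * (2 * hr l - 1) * (PP l x - 1) ≤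
          c * (1 + x * (PP l x - 1))

/-- Module `LB/CorA`. Uses `StmtMain` with `l = 1`, `k = m - 1`: `PP 1 x = 1 + x`,
`hr 1 = 1`. With `h = hr (m-1) - 1 ≥ 0`, `R = √(h² + 1)`, `x = R - h > 0` (so
`x * (h + R) = 1`): `2 hr k - 1 + 2x + x² ≤ c (1 + x²)`, `1 + x² = 2 R x` and
`2h + 1 + 2x + x² = 2h + 2x + 2Rx = 2R + 2Rx = 2Rx (1 + h + R)`, so `c ≥ 1 + h + R`.
(`harmonic (m-1)` cast to `ℝ` is `hr (m-1)`.) -/
def StmtCorA : Prop :=
  ∀ m : ℕ, 2 ≤ m → ∃ (N : Type) (_ : MetricSpace N) (s : Fin m → N), Function.Injective s ∧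
    ∀ c : ℝ, Competitive s c →
      (harmonic (m - 1) : ℝ) + √(((harmonic (m - 1) : ℝ) - 1) ^ 2 + 1) ≤ c

/-- Module `LB/CorB`. `harmonic m = harmonic (m-1) + 1/m`. With `h = harmonic (m-1) - 1`
the claim is `h + 2/m < √(h² + 1)`, which follows from `4 h / m + 4 / m² < 1`, that is
`4 h + 4 / m < m`. This is proved by induction on `m ≥ 6`: `m = 6`:
`harmonic 5 = 137/60`, `4 * 77/60 + 2/3 = 5.8 < 6`; step: the left side grows by
`4/m + 4/(m+1) - 4/m = 4/(m+1) < 1`. -/
def StmtCorB : Prop :=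
  ∀ m : ℕ, 6 ≤ m → 2 * (harmonic m : ℝ) - 1 <
    (harmonic (m - 1) : ℝ) + √(((harmonic (m - 1) : ℝ) - 1) ^ 2 + 1)

/-- Module `LB/Hrb`. Elementary bounds. (1) `harmonic` is the sum of `1 / (i + 1)`
(`harmonic`, `push_cast`). (2), (3) Mathlib: `log_add_one_le_harmonic`,
`harmonic_le_one_add_log`. (4) `1 + y ≤ exp y`, the product is at most
`exp (∑ t ∈ range l, x / (l - t))` and the sum is `x * hr l` (reflect); (5) every factor of
the product is at least `1`. -/
def StmtHrb : Prop :=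
  (∀ n : ℕ, (harmonic n : ℝ) = hr n) ∧
  (∀ n : ℕ, Real.log ((n : ℝ) + 1) ≤ hr n) ∧
  (∀ n : ℕ, 1 ≤ n → hr n ≤ 1 + Real.log n) ∧
  (∀ (l : ℕ) (x : ℝ), 0 ≤ x → PP l x ≤ Real.exp (x * hr l)) ∧
  (∀ (l : ℕ) (x : ℝ), 0 ≤ x → 1 ≤ PP l x)

/-- Module `LB/Asym`. Uses `StmtHrb`. Let `L = log m`, `la = log L` (tends to infinity),
`l = m / 2`, `k = m - m / 2`, so `l + 1 ≥ m / 2` and `k ≥ m / 2`,
`hr l, hr k ≥ L - log 2 ≥ L / 2`, `hr m ≤ 1 + L`. Put `y = (1 - ε/8) * la`, `x = y / hr l`,
`P = PP l x`, `T = 2 * hr m + (2 - ε) * la`. Suppose `c < T`. Since `1 + x (P - 1) > 0` the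
hypothesis gives `2 hr k - 1 + 2 y - T < x (P - 1) (T - 2 hr l + 1)`.
Left side `≥ 2 (L - log 2) - 1 + 2 y - 2 - 2 L - (2 - ε) la = (3ε/4) la - 3 - 2 log 2 ≥
(ε/2) la` for large `m`. Right side: `x ≤ 2 la / L`, `P - 1 ≤ exp y = exp (-(ε/8) la) * L`,
`0 ≤ T - 2 hr l + 1 ≤ 5 + 2 la ≤ 7 la`, so it is at most `14 la² exp (-(ε/8) la)`, which
tends to `0`. Contradiction for large `m`. -/
def StmtAsym : Prop :=
  ∀ ε : ℝ, 0 < ε → ε ≤ 1 → ∀ᶠ m : ℕ in Filter.atTop, 0 < m / 2 ∧ 0 < m - m / 2 ∧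
    ∃ x : ℝ, 0 < x ∧ ∀ c : ℝ,
      2 * hr (m - m / 2) - 1 + 2 * x * hr (m / 2) +
          x * (2 * hr (m / 2) - 1) * (PP (m / 2) x - 1) ≤ c * (1 + x * (PP (m / 2) x - 1)) →
      2 * hr m + (2 - ε) * Real.log (Real.log m) ≤ c

/-- Module `LB/CorC`. Uses `StmtMain`, `StmtAsym`, `StmtHrb`. For `ε ≤ 1` combine the first
two (`m / 2 + (m - m / 2) = m`: `obtain ⟨k, hk⟩ : ∃ k, m = m / 2 + k`, or transport along the
equality with `▸`/`subst`). For `ε > 1` use the result for `ε = 1`, since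
`log (log m) ≥ 0` for `m ≥ 16`. -/
def StmtCorC : Prop :=
  ∀ ε : ℝ, 0 < ε → ∀ᶠ m : ℕ in Filter.atTop,
    ∃ (N : Type) (_ : MetricSpace N) (s : Fin m → N), Function.Injective s ∧
      ∀ c : ℝ, Competitive s c →
        2 * (harmonic m : ℝ) + (2 - ε) * Real.log (Real.log m) ≤ c

end Pool.Agent.MP_a4c1f4_lc.LB
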